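import Pool.Agent.PM94.Skel

/-!
# Heights in a strong component: connectivity gives a skeleton
-/

namespace PM94

open Relation

variable {V : Type*}

/-- If the vertices of `W` are well connected to `A` and from `B` then there is a skeleton. -/
theorem skeleton_of_conn [Fintype V] [DecidableEq V] {R : V → V → Prop} {A B K : Set V}
    {W : Finset V} (hR : ∀ a b, R a b → a ∈ K ∧ b ∈ K)
    (hK : ∀ v ∈ K, v ∈ A ∨ v ∈ B ∨ v ∈ W) (hBK : ∀ v ∈ B, v ∈ K) (hWK : ∀ w ∈ W, w ∈ K)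
    (hAK : ∀ v ∈ A, v ∈ K)
    (hWA : ∀ w ∈ W, w ∉ A) (hWB : ∀ w ∈ W, w ∉ B)
    (hin : ∀ w ∈ W, ∀ Z : Finset V, w ∉ Z → Z.card < 3 * W.card →
      ∃ a ∈ A, a ∉ Z ∧ ReflTransGen (fun a b => R a b ∧ b ∉ Z) a w)
    (hout : ∀ w ∈ W, ∀ Z : Finset V, w ∉ Z → Z.card < 3 * W.card →
      ∃ b ∈ B, b ∉ Z ∧ ReflTransGen (fun a b => R a b ∧ a ∉ Z) w b) :
    ∃ (X : Finset V) (ρ : V → ℕ), (∀ w ∈ W, w ∈ X) ∧ (∀ v ∈ X, v ∈ K) ∧
      (∀ v ∈ X, v ∉ A → v ∉ W → ∃ u ∈ X, R u v ∧ ρ u < ρ v) ∧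
      (∀ v ∈ X, v ∉ B → v ∉ W → ∃ u ∈ X, R v u ∧ ρ v < ρ u) ∧
      (∀ w ∈ W, ∃ u ∈ X, ρ u < ρ w ∧ Through R {v | v ∈ K ∧ v ∉ A ∧ v ∉ X} u w) ∧
      (∀ w ∈ W, ∃ u ∈ X, ρ w < ρ u ∧ Through R {v | v ∈ K ∧ v ∉ B ∧ v ∉ X} w u) := by
  classical
  -- the vertices `Q`
  have hq : ∀ w : V, ∃ q, (∃ a ∈ A, R a w) → q ∈ A ∧ R q w := by
    intro w
    by_cases h : ∃ a ∈ A, R a w
    · obtain ⟨a, ha, haw⟩ := h
      exact ⟨a, fun _ => ⟨ha, haw⟩⟩
    · exact ⟨w, fun h' => absurd h' h⟩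
  choose qf hqf using hq
  let Q : Finset V := (W.filter fun w => ∃ a ∈ A, R a w).image qf
  have hQA : ∀ v ∈ Q, v ∈ A := by
    intro v hv
    simp only [Q, Finset.mem_image, Finset.mem_filter] at hv
    obtain ⟨w, ⟨-, hw⟩, rfl⟩ := hv
    exact (hqf w hw).1
  have hQc : Q.card ≤ W.card := Finset.card_image_le.trans (Finset.card_filter_le _ _)
  let C : Set V := {v | v ∈ K ∧ v ∈ A ∧ v ∉ B ∧ v ∉ Q ∧ ∀ u, R v u → u ∈ B → u ∈ Q}
  let D : Set V := {v | v ∈ K ∧ v ∈ A ∧ v ∉ B ∧ v ∉ Q ∧ ∃ u, R v u ∧ u ∈ B ∧ u ∉ Q}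
  have hcardZ : ∀ w ∈ W, ∀ N : Finset V, N.card ≤ 2 * W.card →
      (N ∪ W.erase w).card < 3 * W.card := by
    intro w hw N hN
    have e1 := Finset.card_union_le N (W.erase w)
    have e2 := Finset.card_erase_of_mem hw
    have e3 : 0 < W.card := Finset.card_pos.2 ⟨w, hw⟩
    omega
  -- out-chains
  have hO : ∀ w : V, ∃ t b, w ∈ W → b ∈ B ∧ b ∉ Q ∧ ((t = b ∧ R w b) ∨
      (t ∈ D ∧ R t b ∧ Through R C w t)) := by
    intro w
    by_cases hw : w ∈ W
    · have hwQ : w ∉ Q := fun h => hWA w hw (hQA w h)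
      obtain ⟨b, hb, hbZ, hwalk⟩ := hout w hw (Q ∪ W.erase w) (by simp [hwQ])
        (hcardZ w hw Q (by omega))
      have hbQ : b ∉ Q := fun h => hbZ (Finset.mem_union_left _ h)
      have key : (∃ t b, b ∈ B ∧ b ∉ Q ∧ ((t = b ∧ R w b) ∨
          (t ∈ D ∧ R t b ∧ Through R C w t))) ∨
          (w ∉ Q ∧ (w ∈ B ∨ (w ∈ A ∧ w ∉ B ∧ ∃ t ∈ D,
            ReflTransGen (fun a b => flip R a b ∧ b ∈ C) t w))) := by
        -- strengthen over all vertices of the walk
        have aux : ∀ u, ReflTransGen (fun a b => R a b ∧ a ∉ Q ∪ W.erase w) u b →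
            (∃ t b, b ∈ B ∧ b ∉ Q ∧ ((t = b ∧ R w b) ∨
              (t ∈ D ∧ R t b ∧ Through R C w t))) ∨
            (u ∉ Q ∧ (u ∈ B ∨ (u ∈ A ∧ u ∉ B ∧ ∃ t ∈ D,
              ReflTransGen (fun a b => flip R a b ∧ b ∈ C) t u))) := by
          intro u hu
          induction hu using ReflTransGen.head_induction_on with
          | refl => exact Or.inr ⟨hbQ, Or.inl hb⟩
          | @head u u' huu' _ ih =>
            obtain ⟨hR', huZ⟩ := huu'
            rcases ih with ih | ⟨hu'Q, ih⟩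
            · exact Or.inl ih
            · have huK := (hR _ _ hR').1
              by_cases huw : u = w
              · subst huw
                left
                rcases ih with hu'B | ⟨hu'A, hu'B, t, ht, hwk⟩
                · exact ⟨u', u', hu'B, hu'Q, Or.inl ⟨rfl, hR'⟩⟩
                · obtain ⟨-, -, -, -, b', hb'⟩ := id ht
                  exact ⟨t, b', hb'.2.1, hb'.2.2, Or.inr ⟨ht, hb'.1,
                    Through.flip (r := flip R) ⟨u', hwk, hR'⟩⟩⟩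
              · right
                have huQ : u ∉ Q := fun h => huZ (Finset.mem_union_left _ h)
                have huW : u ∉ W := fun h =>
                  huZ (Finset.mem_union_right _ (Finset.mem_erase.2 ⟨huw, h⟩))
                refine ⟨huQ, ?_⟩
                by_cases huB : u ∈ B
                · exact Or.inl huB
                · right
                  have huA : u ∈ A := by
                    rcases hK u huK with h | h | h
                    · exact h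
                    · exact absurd h huB
                    · exact absurd h huW
                  refine ⟨huA, huB, ?_⟩
                  by_cases hD : ∃ z, R u z ∧ z ∈ B ∧ z ∉ Q
                  · exact ⟨u, ⟨huK, huA, huB, huQ, hD⟩, .refl⟩
                  · push Not at hD
                    have huC : u ∈ C := ⟨huK, huA, huB, huQ, hD⟩
                    rcases ih with hu'B | ⟨hu'A, hu'B, t, ht, hwk⟩
                    · exact absurd (hD u' hR' hu'B) hu'Q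
                    · exact ⟨t, ht, hwk.tail ⟨hR', huC⟩⟩
        exact aux w hwalk
      rcases key with ⟨t, b', h⟩ | ⟨-, h | ⟨h, -⟩⟩
      · exact ⟨t, b', fun _ => h⟩
      · exact absurd h (hWB w hw)
      · exact absurd h (hWA w hw)
    · exact ⟨w, w, fun h => absurd h hw⟩
  choose tf bf hO using hO
  let N : Finset V := W.image tf ∪ W.image bf
  have hNc : N.card ≤ 2 * W.card := by
    have e1 := Finset.card_union_le (W.image tf) (W.image bf)
    have e2 : (W.image tf).card ≤ W.card := Finset.card_image_le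
    have e3 : (W.image bf).card ≤ W.card := Finset.card_image_le
    simp only [N]
    omega
  have htN : ∀ w ∈ W, tf w ∈ N := fun w hw =>
    Finset.mem_union_left _ (Finset.mem_image_of_mem _ hw)
  have hbN : ∀ w ∈ W, bf w ∈ N := fun w hw =>
    Finset.mem_union_right _ (Finset.mem_image_of_mem _ hw)
  have hNcases : ∀ v ∈ N, (∃ w ∈ W, bf w = v) ∨ (∃ w ∈ W, tf w = v ∧ v ∈ D) := by
    intro v hv
    rcases Finset.mem_union.1 hv with hv | hv
    · obtain ⟨w, hw, rfl⟩ := Finset.mem_image.1 hv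
      obtain ⟨-, -, h | ⟨h, -⟩⟩ := hO w hw
      · exact Or.inl ⟨w, hw, h.1.symm⟩
      · exact Or.inr ⟨w, hw, rfl, h⟩
    · obtain ⟨w, hw, rfl⟩ := Finset.mem_image.1 hv
      exact Or.inl ⟨w, hw, rfl⟩
  have hNQ : ∀ v ∈ N, v ∉ Q := by
    intro v hv
    rcases hNcases v hv with ⟨w, hw, rfl⟩ | ⟨w, hw, rfl, h⟩
    · exact (hO w hw).2.1
    · exact h.2.2.2.1
  have hNW : ∀ v ∈ N, v ∉ W := by
    intro v hv hvW
    rcases hNcases v hv with ⟨w, hw, rfl⟩ | ⟨w, hw, rfl, h⟩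
    · exact hWB _ hvW (hO w hw).1
    · exact hWA _ hvW h.2.1
  have hNC : ∀ v ∈ N, v ∉ C := by
    intro v hv hvC
    rcases hNcases v hv with ⟨w, hw, rfl⟩ | ⟨w, hw, rfl, h⟩
    · exact hvC.2.2.1 (hO w hw).1
    · obtain ⟨u, h1, h2, h3⟩ := h.2.2.2.2
      exact h3 (hvC.2.2.2.2 u h1 h2)
  have hNK : ∀ v ∈ N, v ∈ K := by
    intro v hv
    rcases hNcases v hv with ⟨w, hw, rfl⟩ | ⟨w, hw, rfl, h⟩
    · exact hBK _ (hO w hw).1
    · exact h.1
  -- in-chains
  have hI : ∀ w : V, ∃ a p, w ∈ W → a ∈ A ∧ a ∉ N ∧ a ∉ C ∧ R a p ∧ ((p = w) ∨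
      (p ∉ A ∧ p ∉ W ∧ p ∉ N ∧ ReflTransGen (fun z z' => R z z' ∧ z ∉ A ∧ z ∉ W ∧ z ∉ N) p w)) := by
    intro w
    by_cases hw : w ∈ W
    · by_cases hw1 : ∃ a ∈ A, R a w
      · have hQw : qf w ∈ Q := Finset.mem_image_of_mem _ (Finset.mem_filter.2 ⟨hw, hw1⟩)
        exact ⟨qf w, w, fun _ => ⟨(hqf w hw1).1, fun h => hNQ _ h hQw,
          fun h => h.2.2.2.1 hQw, (hqf w hw1).2, Or.inl rfl⟩⟩
      · have hwN : w ∉ N := fun h => hNW w h hw
        obtain ⟨a₀, ha₀, ha₀Z, hwalk⟩ := hin w hw (N ∪ W.erase w) (by simp [hwN])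
          (hcardZ w hw N hNc)
        have aux : ∀ u, ReflTransGen (fun a b => R a b ∧ b ∉ N ∪ W.erase w) a₀ u →
            (∃ a p, a ∈ A ∧ a ∉ N ∧ a ∉ C ∧ R a p ∧ ((p = w) ∨
              (p ∉ A ∧ p ∉ W ∧ p ∉ N ∧
                ReflTransGen (fun z z' => R z z' ∧ z ∉ A ∧ z ∉ W ∧ z ∉ N) p w))) ∨
            (u ∈ A ∧ u ∉ N) ∨ (u ∉ A ∧ u ∉ W ∧ u ∉ N ∧ ∃ a p, a ∈ A ∧ a ∉ N ∧ a ∉ C ∧ R a p ∧
              p ∉ A ∧ p ∉ W ∧ p ∉ N ∧
                ReflTransGen (fun z z' => R z z' ∧ z ∉ A ∧ z ∉ W ∧ z ∉ N) p u) := by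
          intro u hu
          induction hu with
          | refl => exact Or.inr (Or.inl ⟨ha₀, fun h => ha₀Z (Finset.mem_union_left _ h)⟩)
          | @tail u u' _ huu' ih =>
            obtain ⟨hR', hu'Z⟩ := huu'
            have hu'N : u' ∉ N := fun h => hu'Z (Finset.mem_union_left _ h)
            rcases ih with ih | ⟨huA, huN⟩ | ⟨huA, huW, huN, a, p, h1, h2, h3, h4, h5, h6, h7, h8⟩
            · exact Or.inl ih
            · by_cases hu'w : u' = w
              · exact absurd ⟨u, huA, hu'w ▸ hR'⟩ hw1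
              · have hu'W : u' ∉ W := fun h =>
                  hu'Z (Finset.mem_union_right _ (Finset.mem_erase.2 ⟨hu'w, h⟩))
                by_cases hu'A : u' ∈ A
                · exact Or.inr (Or.inl ⟨hu'A, hu'N⟩)
                · right; right
                  have hu'B : u' ∈ B := by
                    rcases hK u' (hR _ _ hR').2 with h | h | h
                    · exact absurd h hu'A
                    · exact h
                    · exact absurd h hu'W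
                  refine ⟨hu'A, hu'W, hu'N, u, u', huA, huN, ?_, hR', hu'A, hu'W, hu'N, .refl⟩
                  intro hC
                  exact hu'A (hQA _ (hC.2.2.2.2 u' hR' hu'B))
            · by_cases hu'w : u' = w
              · left
                refine ⟨a, p, h1, h2, h3, h4, Or.inr ⟨h5, h6, h7, ?_⟩⟩
                rw [← hu'w]
                exact h8.tail ⟨hR', huA, huW, huN⟩
              · have hu'W : u' ∉ W := fun h =>
                  hu'Z (Finset.mem_union_right _ (Finset.mem_erase.2 ⟨hu'w, h⟩))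
                by_cases hu'A : u' ∈ A
                · exact Or.inr (Or.inl ⟨hu'A, hu'N⟩)
                · exact Or.inr (Or.inr ⟨hu'A, hu'W, hu'N, a, p, h1, h2, h3, h4, h5, h6, h7,
                    h8.tail ⟨hR', huA, huW, huN⟩⟩)
        rcases aux w hwalk with ⟨a, p, h⟩ | ⟨h, -⟩ | ⟨-, h, -⟩
        · exact ⟨a, p, fun _ => h⟩
        · exact absurd h (hWA w hw)
        · exact absurd hw h
    · exact ⟨w, w, fun h => absurd h hw⟩
  choose af pf hI using hI
  let X : Finset V := W ∪ (W.image af ∪ (W.image pf ∪ N))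
  have hX : ∀ v, v ∈ X ↔ v ∈ W ∨ (∃ w ∈ W, af w = v) ∨ (∃ w ∈ W, pf w = v) ∨ v ∈ N := by
    intro v
    simp only [X, Finset.mem_union, Finset.mem_image]
  have hafX : ∀ w ∈ W, af w ∈ X := fun w hw => (hX _).2 (Or.inr (Or.inl ⟨w, hw, rfl⟩))
  have hpfX : ∀ w ∈ W, pf w ∈ X := fun w hw => (hX _).2 (Or.inr (Or.inr (Or.inl ⟨w, hw, rfl⟩)))
  have hNX : ∀ v ∈ N, v ∈ X := fun v hv => (hX _).2 (Or.inr (Or.inr (Or.inr hv)))
  have hWX : ∀ v ∈ W, v ∈ X := fun v hv => (hX _).2 (Or.inl hv)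
  let ρ : V → ℕ := fun v => if v ∈ W.image bf then 4 else if v ∈ N then 3 else
    if v ∈ W then 2 else if v ∈ A then 0 else 1
  have hρb : ∀ w ∈ W, ρ (bf w) = 4 := fun w hw => if_pos (Finset.mem_image_of_mem _ hw)
  have hρt : ∀ w ∈ W, 3 ≤ ρ (tf w) := by
    intro w hw
    simp only [ρ]
    split_ifs with h1 h2 <;> first | omega | exact absurd (htN w hw) h2
  have hρD : ∀ w ∈ W, tf w ∈ D → ρ (tf w) = 3 := by
    intro w hw hD
    have h1 : tf w ∉ W.image bf := by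
      intro h
      obtain ⟨w', hw', h⟩ := Finset.mem_image.1 h
      exact hD.2.2.1 (h ▸ (hO w' hw').1)
    simp only [ρ]
    rw [if_neg h1, if_pos (htN w hw)]
  have hbNN : ∀ v, v ∉ N → v ∉ W.image bf := fun v hv h => hv (Finset.mem_union_right _ h)
  have hρW : ∀ w ∈ W, ρ w = 2 := by
    intro w hw
    have hwN : w ∉ N := fun h => hNW w h hw
    simp only [ρ]
    rw [if_neg (hbNN w hwN), if_neg hwN, if_pos hw]
  have hρa : ∀ w ∈ W, ρ (af w) = 0 := by
    intro w hw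
    obtain ⟨h1, h2, -, -, -⟩ := hI w hw
    have h3 : af w ∉ W := fun h => hWA _ h h1
    simp only [ρ]
    rw [if_neg (hbNN _ h2), if_neg h2, if_neg h3, if_pos h1]
  have hρ1 : ∀ v, v ∉ N → v ∉ W → v ∉ A → ρ v = 1 := by
    intro v h1 h2 h3
    simp only [ρ]
    rw [if_neg (hbNN _ h1), if_neg h1, if_neg h2, if_neg h3]
  refine ⟨X, ρ, hWX, ?_, ?_, ?_, ?_, ?_⟩
  · intro v hv
    rcases (hX v).1 hv with hv | ⟨w, hw, rfl⟩ | ⟨w, hw, rfl⟩ | hv
    · exact hWK v hv
    · exact hAK _ (hI w hw).1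
    · exact (hR _ _ (hI w hw).2.2.2.1).2
    · exact hNK v hv
  · intro v hv hvA hvW
    rcases (hX v).1 hv with hv | ⟨w, hw, rfl⟩ | ⟨w, hw, rfl⟩ | hv
    · exact absurd hv hvW
    · exact absurd (hI w hw).1 hvA
    · obtain ⟨-, -, -, h4, h5⟩ := hI w hw
      refine ⟨af w, hafX w hw, h4, ?_⟩
      rcases h5 with h5 | ⟨h5, h6, h7, -⟩
      · rw [h5] at hvW; exact absurd hw hvW
      · rw [hρa w hw, hρ1 _ h7 h6 h5]; omega
    · rcases hNcases v hv with ⟨w, hw, rfl⟩ | ⟨w, hw, rfl, h⟩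
      · obtain ⟨-, -, h | ⟨hD, h, -⟩⟩ := hO w hw
        · exact ⟨w, hWX w hw, h.2, by rw [hρW w hw, hρb w hw]; omega⟩
        · exact ⟨tf w, hNX _ (htN w hw), h, by rw [hρD w hw hD, hρb w hw]; omega⟩
      · exact absurd h.2.1 hvA
  · intro v hv hvB hvW
    rcases (hX v).1 hv with hv | ⟨w, hw, rfl⟩ | ⟨w, hw, rfl⟩ | hv
    · exact absurd hv hvW
    · obtain ⟨-, -, -, h4, h5⟩ := hI w hw
      refine ⟨pf w, hpfX w hw, h4, ?_⟩
      rcases h5 with h5 | ⟨h5, h6, h7, -⟩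
      · rw [h5, hρa w hw, hρW w hw]; omega
      · rw [hρa w hw, hρ1 _ h7 h6 h5]; omega
    · obtain ⟨-, -, -, h4, h5⟩ := hI w hw
      rcases h5 with h5 | ⟨h5, h6, -, -⟩
      · rw [h5] at hvW; exact absurd hw hvW
      · exfalso
        rcases hK _ (hR _ _ h4).2 with h | h | h
        · exact h5 h
        · exact hvB h
        · exact h6 h
    · rcases hNcases v hv with ⟨w, hw, rfl⟩ | ⟨w, hw, rfl, h⟩
      · exact absurd (hO w hw).1 hvB
      · obtain ⟨h1, -, h2 | ⟨hD, h2, -⟩⟩ := hO w hw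
        · rw [h2.1] at hvB; exact absurd h1 hvB
        · exact ⟨bf w, hNX _ (hbN w hw), h2, by rw [hρD w hw hD, hρb w hw]; omega⟩
  · intro w hw
    obtain ⟨h1, h2, h3, h4, h5⟩ := hI w hw
    rcases h5 with h5 | ⟨h5, h6, h7, h8⟩
    · refine ⟨af w, hafX w hw, by rw [hρa w hw, hρW w hw]; omega, af w, .refl, ?_⟩
      rw [h5] at h4; exact h4
    · rw [hρW w hw]
      have aux : ∀ z, ReflTransGen (fun z z' => R z z' ∧ z ∉ A ∧ z ∉ W ∧ z ∉ N) (pf w) z →
          ∃ u ∈ X, ρ u < 2 ∧ Through R {v | v ∈ K ∧ v ∉ A ∧ v ∉ X} u z := by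
        intro z hz
        induction hz with
        | refl => exact ⟨af w, hafX w hw, by rw [hρa w hw]; omega, af w, .refl, h4⟩
        | @tail z z' _ hzz ih =>
          obtain ⟨hR', hzA, hzW, hzN⟩ := hzz
          obtain ⟨u, hu, hult, t', ht', ht'z⟩ := ih
          by_cases hzX : z ∈ X
          · exact ⟨z, hzX, by rw [hρ1 z hzN hzW hzA]; omega, z, .refl, hR'⟩
          · exact ⟨u, hu, hult, z, ht'.tail ⟨ht'z, (hR _ _ hR').1, hzA, hzX⟩, hR'⟩
      exact aux w h8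
  · intro w hw
    obtain ⟨h1, h2, h3⟩ := hO w hw
    rcases h3 with ⟨h3, h4⟩ | ⟨h3, h4, h5⟩
    · exact ⟨bf w, hNX _ (hbN w hw), by rw [hρW w hw, hρb w hw]; omega, w, .refl, h4⟩
    · refine ⟨tf w, hNX _ (htN w hw), by rw [hρW w hw, hρD w hw h3]; omega, ?_⟩
      obtain ⟨t', ht', ht'2⟩ := h5
      refine ⟨t', ?_, ht'2⟩
      refine ReflTransGen.mono ?_ _ _ ht'
      rintro a b ⟨hab, hbC⟩
      refine ⟨hab, hbC.1, hbC.2.2.1, ?_⟩
      intro hbX
      rcases (hX b).1 hbX with h | ⟨w', hw', rfl⟩ | ⟨w', hw', rfl⟩ | h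
      · exact hWA b h hbC.2.1
      · exact (hI w' hw').2.2.1 hbC
      · rcases (hI w' hw').2.2.2.2 with h | ⟨h, -⟩
        · rw [h] at hbC; exact hWA w' hw' hbC.2.1
        · exact h hbC.2.1
      · exact hNC b h hbC

end PM94
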