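import Pool.Agent.PM94.Height
import Pool.Agent.PM94.Conn

/-!
# Hamiltonian `(x,y)`-paths in path-mergeable digraphs: reduction to the strong components
-/

namespace PM94

open Relation

variable {V : Type*}

/-- There is a walk from `u` to `v` in the subdigraph induced by `U`. -/
def Reach (r : V → V → Prop) (U : Set V) (u v : V) : Prop :=
  u ∈ U ∧ ReflTransGen (fun a b => r a b ∧ b ∈ U) u v

/-- `u` and `v` are in the same strong component of the digraph with `x` and `y` deleted. -/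
def SC (r : V → V → Prop) (x y u v : V) : Prop :=
  Reach r {x, y}ᶜ u v ∧ Reach r {x, y}ᶜ v u

/-- `v` is an entry: it has an in-neighbour outside its component, other than `y`. -/
def Entry (r : V → V → Prop) (x y v : V) : Prop :=
  v ≠ x ∧ v ≠ y ∧ ∃ u, r u v ∧ u ≠ y ∧ ¬ SC r x y u v

/-- `v` is an exit: it has an out-neighbour outside its component, other than `x`. -/
def Exit (r : V → V → Prop) (x y v : V) : Prop :=
  v ≠ x ∧ v ≠ y ∧ ∃ w, r v w ∧ w ≠ x ∧ ¬ SC r x y v w

/-- `v` is deep: neither an entry nor an exit. -/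
def Deep (r : V → V → Prop) (x y v : V) : Prop :=
  v ≠ x ∧ v ≠ y ∧ ¬ Entry r x y v ∧ ¬ Exit r x y v

/-- Every vertex is reachable from `x` without passing `y` and reaches `y` without passing `x`. -/
def Linked (r : V → V → Prop) (x y : V) : Prop :=
  Reach r Set.univ x y ∧ ∀ v, v ≠ x → v ≠ y → Reach r {y}ᶜ x v ∧ Reach r {x}ᶜ v y

theorem Reach.mem_right {r : V → V → Prop} {U : Set V} {u v : V} (h : Reach r U u v) : v ∈ U := by
  obtain ⟨hu, h⟩ := h
  rcases rtg_mem h with rfl | h
  · exact hu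
  · exact h

theorem Reach.trans {r : V → V → Prop} {U : Set V} {u v w : V} (h : Reach r U u v)
    (h' : Reach r U v w) : Reach r U u w := ⟨h.1, h.2.trans h'.2⟩

theorem Reach.refl {r : V → V → Prop} {U : Set V} {u : V} (h : u ∈ U) : Reach r U u u := ⟨h, .refl⟩

theorem Reach.arc {r : V → V → Prop} {U : Set V} {u v : V} (hu : u ∈ U) (hv : v ∈ U)
    (h : r u v) : Reach r U u v := ⟨hu, .single ⟨h, hv⟩⟩

theorem mem_compl_pair {x y v : V} : v ∈ ({x, y}ᶜ : Set V) ↔ v ≠ x ∧ v ≠ y := by
  simp only [Set.mem_compl_iff, Set.mem_insert_iff, Set.mem_singleton_iff, not_or, ne_eq]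

theorem SC.symm {r : V → V → Prop} {x y u v : V} (h : SC r x y u v) : SC r x y v u := ⟨h.2, h.1⟩

theorem SC.trans {r : V → V → Prop} {x y u v w : V} (h : SC r x y u v) (h' : SC r x y v w) :
    SC r x y u w := ⟨h.1.trans h'.1, h'.2.trans h.2⟩

theorem SC.left {r : V → V → Prop} {x y u v : V} (h : SC r x y u v) : u ≠ x ∧ u ≠ y :=
  mem_compl_pair.1 h.1.1

theorem SC.right {r : V → V → Prop} {x y u v : V} (h : SC r x y u v) : v ≠ x ∧ v ≠ y :=
  mem_compl_pair.1 h.2.1

theorem SC.refl {r : V → V → Prop} {x y u : V} (h1 : u ≠ x) (h2 : u ≠ y) : SC r x y u u :=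
  ⟨Reach.refl (mem_compl_pair.2 ⟨h1, h2⟩), Reach.refl (mem_compl_pair.2 ⟨h1, h2⟩)⟩

/-- A height on `S` inside the strong components. -/
structure Good (r : V → V → Prop) (x y : V) (S : Set V) (μ : V → ℕ) : Prop where
  ne : ∀ v ∈ S, v ≠ x ∧ v ≠ y
  low : ∀ v ∈ S, ¬ Entry r x y v → ∃ u ∈ S, r u v ∧ SC r x y u v ∧ μ u < μ v
  high : ∀ v ∈ S, ¬ Exit r x y v → ∃ w ∈ S, r v w ∧ SC r x y v w ∧ μ v < μ w

/-- If all deep vertices are covered by a height inside the strong components then so are all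
vertices: one step. -/
theorem extend_step {r : V → V → Prop} {x y : V} (hL : Linked r x y) {S : Set V} {μ : V → ℕ}
    (hG : Good r x y S μ) (hdeep : ∀ v, Deep r x y v → v ∈ S) {z : V} (hzx : z ≠ x) (hzy : z ≠ y)
    (hz : z ∉ S) : ∃ (S' : Set V) (μ' : V → ℕ), S ⊂ S' ∧ Good r x y S' μ' := by
  classical
  -- four ways to extend
  by_cases h1 : ∃ v, v ∉ S ∧ Entry r x y v ∧ Exit r x y v
  · obtain ⟨v, hvS, hvA, hvB⟩ := h1
    refine ⟨insert v S, Function.update μ v 0, Set.ssubset_insert hvS, ⟨?_, ?_, ?_⟩⟩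
    · rintro u (rfl | hu)
      · exact ⟨hvA.1, hvA.2.1⟩
      · exact hG.ne u hu
    · rintro u (rfl | hu) hA
      · exact absurd hvA hA
      · obtain ⟨w, hw, h1, h2, h3⟩ := hG.low u hu hA
        refine ⟨w, Or.inr hw, h1, h2, ?_⟩
        have e1 : w ≠ v := fun h => hvS (h ▸ hw)
        have e2 : u ≠ v := fun h => hvS (h ▸ hu)
        rw [Function.update_of_ne e1, Function.update_of_ne e2]
        exact h3
    · rintro u (rfl | hu) hB
      · exact absurd hvB hB
      · obtain ⟨w, hw, h1, h2, h3⟩ := hG.high u hu hB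
        refine ⟨w, Or.inr hw, h1, h2, ?_⟩
        have e1 : w ≠ v := fun h => hvS (h ▸ hw)
        have e2 : u ≠ v := fun h => hvS (h ▸ hu)
        rw [Function.update_of_ne e1, Function.update_of_ne e2]
        exact h3
  by_cases h2 : ∃ v w, v ∉ S ∧ Entry r x y v ∧ w ∈ S ∧ r v w ∧ SC r x y v w
  · obtain ⟨v, w, hvS, hvA, hwS, hvw, hsc⟩ := h2
    refine ⟨insert v S, Function.update (fun u => 2 * μ u + 1) v (2 * μ w),
      Set.ssubset_insert hvS, ⟨?_, ?_, ?_⟩⟩
    · rintro u (rfl | hu)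
      · exact ⟨hvA.1, hvA.2.1⟩
      · exact hG.ne u hu
    · rintro u (rfl | hu) hA
      · exact absurd hvA hA
      · obtain ⟨w, hw, h1, h2, h3⟩ := hG.low u hu hA
        refine ⟨w, Or.inr hw, h1, h2, ?_⟩
        have e1 : w ≠ v := fun h => hvS (h ▸ hw)
        have e2 : u ≠ v := fun h => hvS (h ▸ hu)
        rw [Function.update_of_ne e1, Function.update_of_ne e2]
        omega
    · rintro u (rfl | hu) hB
      · refine ⟨w, Or.inr hwS, hvw, hsc, ?_⟩
        have e1 : w ≠ u := fun h => hvS (h ▸ hwS)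
        rw [Function.update_self, Function.update_of_ne e1]
        omega
      · obtain ⟨w, hw, h1, h2, h3⟩ := hG.high u hu hB
        refine ⟨w, Or.inr hw, h1, h2, ?_⟩
        have e1 : w ≠ v := fun h => hvS (h ▸ hw)
        have e2 : u ≠ v := fun h => hvS (h ▸ hu)
        rw [Function.update_of_ne e1, Function.update_of_ne e2]
        omega
  by_cases h3 : ∃ v u, v ∉ S ∧ Exit r x y v ∧ u ∈ S ∧ r u v ∧ SC r x y u v
  · obtain ⟨v, u₀, hvS, hvB, huS, huv, hsc⟩ := h3
    refine ⟨insert v S, Function.update (fun u => 2 * μ u + 1) v (2 * μ u₀ + 2),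
      Set.ssubset_insert hvS, ⟨?_, ?_, ?_⟩⟩
    · rintro u (rfl | hu)
      · exact ⟨hvB.1, hvB.2.1⟩
      · exact hG.ne u hu
    · rintro u (rfl | hu) hA
      · refine ⟨u₀, Or.inr huS, huv, hsc, ?_⟩
        have e1 : u₀ ≠ u := fun h => hvS (h ▸ huS)
        rw [Function.update_self, Function.update_of_ne e1]
        omega
      · obtain ⟨w, hw, h1, h2, h3⟩ := hG.low u hu hA
        refine ⟨w, Or.inr hw, h1, h2, ?_⟩
        have e1 : w ≠ v := fun h => hvS (h ▸ hw)
        have e2 : u ≠ v := fun h => hvS (h ▸ hu)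
        rw [Function.update_of_ne e1, Function.update_of_ne e2]
        omega
    · rintro u (rfl | hu) hB
      · exact absurd hvB hB
      · obtain ⟨w, hw, h1, h2, h3⟩ := hG.high u hu hB
        refine ⟨w, Or.inr hw, h1, h2, ?_⟩
        have e1 : w ≠ v := fun h => hvS (h ▸ hw)
        have e2 : u ≠ v := fun h => hvS (h ▸ hu)
        rw [Function.update_of_ne e1, Function.update_of_ne e2]
        omega
  by_cases h4 : ∃ u v, u ∉ S ∧ v ∉ S ∧ Entry r x y u ∧ Exit r x y v ∧ r u v ∧ SC r x y u v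
  · obtain ⟨u₀, v, huS, hvS, huA, hvB, huv, hsc⟩ := h4
    have hne : u₀ ≠ v := fun h => h1 ⟨u₀, huS, huA, h ▸ hvB⟩
    refine ⟨insert u₀ (insert v S), Function.update (Function.update μ v 1) u₀ 0, ?_,
      ⟨?_, ?_, ?_⟩⟩
    · refine ⟨fun w hw => Or.inr (Or.inr hw), fun h => huS (h (Or.inl rfl))⟩
    · rintro u (rfl | rfl | hu)
      · exact ⟨huA.1, huA.2.1⟩
      · exact ⟨hvB.1, hvB.2.1⟩
      · exact hG.ne u hu
    · rintro u (rfl | rfl | hu) hA
      · exact absurd huA hA
      · refine ⟨u₀, Or.inl rfl, huv, hsc, ?_⟩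
        rw [Function.update_self, Function.update_of_ne hne.symm, Function.update_self]
        omega
      · obtain ⟨w, hw, h1, h2, h3⟩ := hG.low u hu hA
        refine ⟨w, Or.inr (Or.inr hw), h1, h2, ?_⟩
        have e1 : w ≠ u₀ := fun h => huS (h ▸ hw)
        have e2 : u ≠ u₀ := fun h => huS (h ▸ hu)
        have e3 : w ≠ v := fun h => hvS (h ▸ hw)
        have e4 : u ≠ v := fun h => hvS (h ▸ hu)
        rw [Function.update_of_ne e1, Function.update_of_ne e2, Function.update_of_ne e3,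
          Function.update_of_ne e4]
        exact h3
    · rintro u (rfl | rfl | hu) hB
      · refine ⟨v, Or.inr (Or.inl rfl), huv, hsc, ?_⟩
        rw [Function.update_self, Function.update_of_ne hne.symm, Function.update_self]
        omega
      · exact absurd hvB hB
      · obtain ⟨w, hw, h1, h2, h3⟩ := hG.high u hu hB
        refine ⟨w, Or.inr (Or.inr hw), h1, h2, ?_⟩
        have e1 : w ≠ u₀ := fun h => huS (h ▸ hw)
        have e2 : u ≠ u₀ := fun h => huS (h ▸ hu)
        have e3 : w ≠ v := fun h => hvS (h ▸ hw)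
        have e4 : u ≠ v := fun h => hvS (h ▸ hu)
        rw [Function.update_of_ne e1, Function.update_of_ne e2, Function.update_of_ne e3,
          Function.update_of_ne e4]
        exact h3
  -- otherwise a contradiction
  exfalso
  have cases : ∀ v, v ≠ x → v ≠ y → v ∉ S → Entry r x y v ∨ Exit r x y v := by
    intro v hvx hvy hvS
    by_contra hcon
    push Not at hcon
    exact hvS (hdeep v ⟨hvx, hvy, hcon.1, hcon.2⟩)
  rcases cases z hzx hzy hz with hA | hB
  · -- follow a walk to `y`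
    obtain ⟨-, hwalk⟩ := (hL.2 z hzx hzy).2
    have aux : ∀ w, ReflTransGen (fun a b => r a b ∧ b ∈ ({x}ᶜ : Set V)) z w →
        w ∉ S ∧ Entry r x y w := by
      intro w hw
      induction hw with
      | refl => exact ⟨hz, hA⟩
      | @tail u u' _ huu' ih =>
        obtain ⟨hR, hu'x⟩ := huu'
        obtain ⟨huS, huA⟩ := ih
        have huB : ¬ Exit r x y u := fun h => h1 ⟨u, huS, huA, h⟩
        have hsc : SC r x y u u' := by
          by_contra hcon
          exact huB ⟨huA.1, huA.2.1, u', hR, hu'x, hcon⟩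
        have hu'S : u' ∉ S := fun h => h2 ⟨u, u', huS, huA, h, hR, hsc⟩
        refine ⟨hu'S, ?_⟩
        rcases cases u' hsc.right.1 hsc.right.2 hu'S with h | h
        · exact h
        · exact absurd ⟨u, u', huS, hu'S, huA, h, hR, hsc⟩ h4
    exact (aux y hwalk).2.2.1 rfl
  · obtain ⟨hxy, hwalk⟩ := (hL.2 z hzx hzy).1
    have aux : ∀ w, ReflTransGen (fun a b => r a b ∧ b ∈ ({y}ᶜ : Set V)) w z → w ≠ y →
        w ∉ S ∧ Exit r x y w := by
      intro w hw
      induction hw using ReflTransGen.head_induction_on with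
      | refl => exact fun _ => ⟨hz, hB⟩
      | @head u u' huu' _ ih =>
        intro huy
        obtain ⟨hR, hu'y⟩ := huu'
        obtain ⟨hu'S, hu'B⟩ := ih hu'y
        have hu'A : ¬ Entry r x y u' := fun h => h1 ⟨u', hu'S, h, hu'B⟩
        have hsc : SC r x y u u' := by
          by_contra hcon
          exact hu'A ⟨hu'B.1, hu'B.2.1, u, hR, huy, hcon⟩
        have huS : u ∉ S := fun h => h3 ⟨u', u, hu'S, hu'B, h, hR, hsc⟩
        refine ⟨huS, ?_⟩
        rcases cases u hsc.left.1 hsc.left.2 huS with h | h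
        · exact absurd ⟨u, u', huS, hu'S, h, hu'B, hR, hsc⟩ h4
        · exact h
    exact (aux x hwalk hxy).2.1 rfl

theorem extend_all [Fintype V] {r : V → V → Prop} {x y : V} (hL : Linked r x y) :
    ∀ (n : ℕ) (S : Set V) (μ : V → ℕ), Sᶜ.ncard = n → Good r x y S μ →
      (∀ v, Deep r x y v → v ∈ S) → ∃ ν : V → ℕ, Good r x y {v | v ≠ x ∧ v ≠ y} ν := by
  intro n
  induction n using Nat.strong_induction_on with
  | _ n ih =>
    intro S μ hn hG hdeep
    by_cases h : ∃ z, z ≠ x ∧ z ≠ y ∧ z ∉ S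
    · obtain ⟨z, hzx, hzy, hz⟩ := h
      obtain ⟨S', μ', hSS', hG'⟩ := extend_step hL hG hdeep hzx hzy hz
      have hlt : S'ᶜ.ncard < n := by
        rw [← hn]
        exact Set.ncard_lt_ncard (compl_lt_compl_iff_lt.2 hSS') (Set.toFinite _)
      exact ih _ hlt S' μ' rfl hG' (fun v hv => hSS'.1 (hdeep v hv))
    · push Not at h
      refine ⟨μ, ?_⟩
      have : S = {v | v ≠ x ∧ v ≠ y} := by
        ext v
        exact ⟨fun hv => hG.ne v hv, fun hv => h v hv.1 hv.2⟩
      rwa [this] at hG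

end PM94
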