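import Pool.Agent.PM94.Main

/-!
# Hamiltonian `(x,y)`-paths in path-mergeable digraphs: exposed vertices
-/

namespace PM94

open Relation

variable {V : Type*}

/-- `u` is exposed: some walk in the component of `u` from an entry to an out-neighbour of `u`
has no vertex before its last one that is `u` or adjacent to `u`. -/
def Exposed (r : V → V → Prop) (x y u : V) : Prop :=
  ∃ a o, Entry r x y a ∧ SC r x y u a ∧ r u o ∧
    ReflTransGen (fun s t => r s t ∧ SC r x y u t ∧ s ≠ u ∧ ¬ r s u ∧ ¬ r u s) a o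

theorem Good.insert {r : V → V → Prop} {x y : V} {S : Set V} {μ : V → ℕ} (hG : Good r x y S μ)
    (R : Set V) (η : V → ℕ) (N b : ℕ) (hRS : ∀ v ∈ R, v ∉ S) (hRne : ∀ v ∈ R, v ≠ x ∧ v ≠ y)
    (hη : ∀ v ∈ R, 0 < η v ∧ η v < N)
    (hlow : ∀ v ∈ R, Entry r x y v ∨ (∃ u ∈ R, r u v ∧ SC r x y u v ∧ η u < η v) ∨
      ∃ u ∈ S, r u v ∧ SC r x y u v ∧ μ u < b)
    (hhigh : ∀ v ∈ R, Exit r x y v ∨ (∃ u ∈ R, r v u ∧ SC r x y v u ∧ η v < η u) ∨
      ∃ u ∈ S, r v u ∧ SC r x y v u ∧ b ≤ μ u) :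
    ∃ ν : V → ℕ, Good r x y (S ∪ R) ν := by
  classical
  let ν : V → ℕ := fun v => if v ∈ R then N * b + η v else N * (μ v + 1)
  have hνR : ∀ v ∈ R, ν v = N * b + η v := fun v hv => if_pos hv
  have hνS : ∀ v ∈ S, ν v = N * (μ v + 1) := fun v hv => if_neg (fun h => hRS v h hv)
  have hSS : ∀ u ∈ S, ∀ v ∈ S, 0 < N → μ u < μ v → ν u < ν v := by
    intro u hu v hv hN h
    rw [hνS u hu, hνS v hv]
    exact Nat.mul_lt_mul_of_pos_left (by omega) hN
  -- if `N = 0` then `R` is empty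
  rcases Nat.eq_zero_or_pos N with hN0 | hN
  · have hRe : R = ∅ := by
      ext v
      simp only [Set.mem_empty_iff_false, iff_false]
      intro hv
      have := (hη v hv).2
      omega
    exact ⟨μ, by rw [hRe, Set.union_empty]; exact hG⟩
  refine ⟨ν, ⟨?_, ?_, ?_⟩⟩
  · rintro v (hv | hv)
    · exact hG.ne v hv
    · exact hRne v hv
  · rintro v (hv | hv) hE
    · obtain ⟨u, hu, h1, h2, h3⟩ := hG.low v hv hE
      exact ⟨u, Or.inl hu, h1, h2, hSS u hu v hv hN h3⟩
    · rcases hlow v hv with h | ⟨u, hu, h1, h2, h3⟩ | ⟨u, hu, h1, h2, h3⟩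
      · exact absurd h hE
      · exact ⟨u, Or.inr hu, h1, h2, by rw [hνR u hu, hνR v hv]; omega⟩
      · refine ⟨u, Or.inl hu, h1, h2, ?_⟩
        rw [hνS u hu, hνR v hv]
        have e1 : N * (μ u + 1) ≤ N * b := Nat.mul_le_mul_left _ h3
        have e2 := (hη v hv).1
        omega
  · rintro v (hv | hv) hE
    · obtain ⟨u, hu, h1, h2, h3⟩ := hG.high v hv hE
      exact ⟨u, Or.inl hu, h1, h2, hSS v hv u hu hN h3⟩
    · rcases hhigh v hv with h | ⟨u, hu, h1, h2, h3⟩ | ⟨u, hu, h1, h2, h3⟩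
      · exact absurd h hE
      · exact ⟨u, Or.inr hu, h1, h2, by rw [hνR u hu, hνR v hv]; omega⟩
      · refine ⟨u, Or.inl hu, h1, h2, ?_⟩
        rw [hνS u hu, hνR v hv]
        have e1 : N * (b + 1) ≤ N * (μ u + 1) := Nat.mul_le_mul_left _ (by omega)
        have e2 := (hη v hv).2
        have e3 : N * (b + 1) = N * b + N := by ring
        omega

/-- Exits can always be added. -/
theorem add_exit [Fintype V] {r : V → V → Prop} {x y : V} (hL : Linked r x y) {S : Set V}
    {μ : V → ℕ} (hG : Good r x y S μ) {v : V} (hv : Exit r x y v) (hvS : v ∉ S) :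
    ∃ (S' : Set V) (ν : V → ℕ), S ⊂ S' ∧ Good r x y S' ν := by
  classical
  let Q : V → V → Prop := fun a b => r a b ∧ SC r x y a b ∧ a ∉ S ∧ b ∉ S
  let Z : Set V := {z | ReflTransGen (flip Q) v z}
  have hvx : v ≠ x := hv.1
  have hvy : v ≠ y := hv.2.1
  have hZ : ∀ z ∈ Z, SC r x y z v ∧ z ∉ S := by
    intro z hz
    have hz' : ReflTransGen (flip Q) v z := hz
    induction hz' with
    | refl => exact ⟨SC.refl hvx hvy, hvS⟩
    | @tail a b hva hab ih =>
      obtain ⟨h1, -⟩ := ih hva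
      exact ⟨hab.2.1.trans h1, hab.2.2.1⟩
  -- some vertex of `Z` is an entry or has an in-neighbour in `S`
  have hstart : ∃ z ∈ Z, Entry r x y z ∨ ∃ s ∈ S, r s z ∧ SC r x y s z := by
    by_contra hcon
    push Not at hcon
    have hclosed : ∀ z ∈ Z, ∀ w, r w z → w ≠ y → w ∈ Z := by
      intro z hz w hwz hwy
      obtain ⟨h1, h2⟩ := hcon z hz
      obtain ⟨hzv, hzS⟩ := hZ z hz
      have hsc : SC r x y w z := by
        by_contra hn
        exact h1 ⟨hzv.left.1, hzv.left.2, w, hwz, hwy, hn⟩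
      have hwS : w ∉ S := fun h => h2 w h hwz hsc
      have hz' : ReflTransGen (flip Q) v z := hz
      exact hz'.tail ⟨hwz, hsc, hwS, hzS⟩
    obtain ⟨hxy, hwalk⟩ := (hL.2 v hvx hvy).1
    have aux : ∀ w, ReflTransGen (fun a b => r a b ∧ b ∈ ({y}ᶜ : Set V)) w v → w ≠ y → w ∈ Z := by
      intro w hw
      induction hw using ReflTransGen.head_induction_on with
      | refl => exact fun _ => ReflTransGen.refl
      | @head a b hab _ ih => exact fun hay => hclosed b (ih hab.2) a hab.1 hay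
    exact absurd rfl (hZ x (aux x hwalk hxy)).1.left.1
  obtain ⟨z₀, hz₀, hst⟩ := hstart
  obtain ⟨d, hd⟩ := bfs (flip Q) {v}
  have hnx : ∀ z : V, ∃ w, z ∈ Z → z ≠ v → Q z w ∧ d w < d z ∧ w ∈ Z := by
    intro z
    by_cases h : z ∈ Z ∧ z ≠ v
    · obtain ⟨w, h1, h2, s, hs, h3⟩ := hd z h.2 ⟨v, rfl, h.1⟩
      have hs' : s = v := hs
      subst hs'
      exact ⟨w, fun _ _ => ⟨h1, h2, h3⟩⟩
    · exact ⟨z, fun h1 h2 => absurd ⟨h1, h2⟩ h⟩
  choose nx hnx using hnx
  let R : Set V := {z | ReflTransGen (fun a b => a ≠ v ∧ b = nx a) z₀ z}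
  have hRZ : ∀ z ∈ R, z ∈ Z := by
    intro z hz
    have hz' : ReflTransGen (fun a b => a ≠ v ∧ b = nx a) z₀ z := hz
    induction hz' with
    | refl => exact hz₀
    | @tail a b h1 hab ih =>
      rw [hab.2]
      exact (hnx a (ih h1) hab.1).2.2
  let D : ℕ := Finset.univ.sup d
  have hdD : ∀ z, d z ≤ D := fun z => Finset.le_sup (Finset.mem_univ z)
  obtain ⟨b, hb⟩ : ∃ b : ℕ, Entry r x y z₀ ∨ ∃ s ∈ S, r s z₀ ∧ SC r x y s z₀ ∧ μ s < b := by
    rcases hst with h | ⟨s, hs, h1, h2⟩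
    · exact ⟨0, Or.inl h⟩
    · exact ⟨μ s + 1, Or.inr ⟨s, hs, h1, h2, by omega⟩⟩
  obtain ⟨ν, hν⟩ := hG.insert R (fun z => D + 1 - d z) (D + 2) b
    (fun z hz => (hZ z (hRZ z hz)).2)
    (fun z hz => (hZ z (hRZ z hz)).1.left)
    (fun z hz => by have := hdD z; constructor <;> omega)
    (by
      intro z hz
      have hz' : ReflTransGen (fun a b => a ≠ v ∧ b = nx a) z₀ z := hz
      rcases ReflTransGen.cases_tail hz' with h | ⟨a, h1, h2, h3⟩
      · rw [h]
        rcases hb with hb | ⟨s, hs, e1, e2, e3⟩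
        · exact Or.inl hb
        · exact Or.inr (Or.inr ⟨s, hs, e1, e2, e3⟩)
      · obtain ⟨k1, k2, -⟩ := hnx a (hRZ a h1) h2
        rw [← h3] at k1 k2
        refine Or.inr (Or.inl ⟨a, h1, k1.1, k1.2.1, ?_⟩)
        have := hdD a
        have := hdD z
        omega)
    (by
      intro z hz
      by_cases hzv : z = v
      · rw [hzv]; exact Or.inl hv
      · obtain ⟨k1, k2, -⟩ := hnx z (hRZ z hz) hzv
        refine Or.inr (Or.inl ⟨nx z, ReflTransGen.tail hz ⟨hzv, rfl⟩, k1.1, k1.2.1, ?_⟩)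
        have := hdD (nx z)
        have := hdD z
        omega)
  have hz₀R : z₀ ∈ R := ReflTransGen.refl
  refine ⟨S ∪ R, ν, ⟨Set.subset_union_left, fun h => ?_⟩, hν⟩
  exact (hZ z₀ hz₀).2 (h (Or.inr hz₀R))

/-- A deep vertex that is not exposed can be added if it has an out-neighbour in `S`. -/
theorem add_deep {r : V → V → Prop} {x y : V} {S : Set V}
    {μ : V → ℕ} (hG : Good r x y S μ) {u t : V} (hu : Deep r x y u) (huS : u ∉ S)
    (hne : ¬ Exposed r x y u) (ht : t ∈ S) (hut : r u t) :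
    ∃ (S' : Set V) (ν : V → ℕ), S ⊂ S' ∧ Good r x y S' ν := by
  classical
  have hscout : ∀ w, r u w → w ≠ x → SC r x y u w := by
    intro w h1 h2
    by_contra hcon
    exact hu.2.2.2 ⟨hu.1, hu.2.1, w, h1, h2, hcon⟩
  have hscin : ∀ w, r w u → w ≠ y → SC r x y w u := by
    intro w h1 h2
    by_contra hcon
    exact hu.2.2.1 ⟨hu.1, hu.2.1, w, h1, h2, hcon⟩
  -- an out-neighbour in `S` of minimal height
  obtain ⟨o, ⟨hoS, huo⟩, hmin⟩ : ∃ o, (o ∈ S ∧ r u o) ∧ ∀ o', o' ∈ S ∧ r u o' → μ o ≤ μ o' := by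
    have hex : ∃ n, ∃ o, (o ∈ S ∧ r u o) ∧ μ o = n := ⟨μ t, t, ⟨ht, hut⟩, rfl⟩
    obtain ⟨o, ho, hon⟩ := Nat.find_spec hex
    refine ⟨o, ho, fun o' ho' => ?_⟩
    rw [hon]
    exact Nat.find_min' hex ⟨o', ho', rfl⟩
  have huo' := hscout o huo (hG.ne o hoS).1
  by_cases hi : ∃ i ∈ S, r i u ∧ μ i < μ o
  · obtain ⟨i, hiS, hiu, hlt⟩ := hi
    obtain ⟨ν, hν⟩ := hG.insert {u} (fun _ => 1) 2 (μ o)
      (by intro v hv; have h : v = u := hv; rw [h]; exact huS)
      (by intro v hv; have h : v = u := hv; rw [h]; exact ⟨hu.1, hu.2.1⟩)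
      (by intro v _; constructor <;> omega)
      (by
        intro v hv; have h : v = u := hv; rw [h]
        exact Or.inr (Or.inr ⟨i, hiS, hiu, hscin i hiu (hG.ne i hiS).2, hlt⟩))
      (by
        intro v hv; have h : v = u := hv; rw [h]
        exact Or.inr (Or.inr ⟨o, hoS, huo, huo', le_rfl⟩))
    refine ⟨S ∪ {u}, ν, ⟨Set.subset_union_left, fun h => ?_⟩, hν⟩
    exact huS (h (Or.inr rfl))
  · exfalso
    push Not at hi
    have aux : ∀ n z, μ z = n → z ∈ S → SC r x y u z → μ z ≤ μ o → ∃ a, Entry r x y a ∧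
        SC r x y u a ∧
        ReflTransGen (fun s t => r s t ∧ SC r x y u t ∧ s ≠ u ∧ ¬ r s u ∧ ¬ r u s) a z := by
      intro n
      induction n using Nat.strong_induction_on with
      | _ n ih =>
        intro z hzn hzS hzsc hzo
        by_cases hE : Entry r x y z
        · exact ⟨z, hE, hzsc, .refl⟩
        · obtain ⟨z', hz'S, h1, h2, h3⟩ := hG.low z hzS hE
          obtain ⟨a, ha1, ha2, ha3⟩ := ih (μ z') (by omega) z' rfl hz'S (hzsc.trans h2.symm)
            (by omega)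
          refine ⟨a, ha1, ha2, ha3.tail ⟨h1, hzsc, ?_, ?_, ?_⟩⟩
          · rintro rfl; exact huS hz'S
          · intro h
            have := hi z' hz'S h
            omega
          · intro h
            have := hmin z' ⟨hz'S, h⟩
            omega
    obtain ⟨a, ha1, ha2, ha3⟩ := aux (μ o) o rfl hoS huo' le_rfl
    exact hne ⟨a, o, ha1, ha2, huo, ha3⟩

/-- The deep exposed vertices suffice: one step. -/
theorem free_step [Fintype V] {r : V → V → Prop} {x y : V} (hL : Linked r x y) {S : Set V}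
    {μ : V → ℕ} (hG : Good r x y S μ) (hS : ∀ v, Deep r x y v → Exposed r x y v → v ∈ S) {z : V}
    (hzx : z ≠ x) (hzy : z ≠ y) (hz : z ∉ S) :
    ∃ (S' : Set V) (ν : V → ℕ), S ⊂ S' ∧ Good r x y S' ν := by
  classical
  by_cases hex : ∃ v, Exit r x y v ∧ v ∉ S
  · obtain ⟨v, hv, hvS⟩ := hex
    exact add_exit hL hG hv hvS
  push Not at hex
  -- a vertex outside `S` with an out-neighbour in `S`
  obtain ⟨u, t, hux, huy, huS, htS, hut⟩ : ∃ u t, u ≠ x ∧ u ≠ y ∧ u ∉ S ∧ t ∈ S ∧ r u t := by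
    by_contra hcon
    push Not at hcon
    obtain ⟨-, hwalk⟩ := (hL.2 z hzx hzy).2
    have aux : ∀ w, ReflTransGen (fun a b => r a b ∧ b ∈ ({x}ᶜ : Set V)) z w →
        w ≠ x ∧ w ≠ y ∧ w ∉ S := by
      intro w hw
      induction hw with
      | refl => exact ⟨hzx, hzy, hz⟩
      | @tail a b _ hab ih =>
        obtain ⟨h1, h2, h3⟩ := ih
        have hbx : b ≠ x := hab.2
        have hbS : b ∉ S := fun h => hcon a b h1 h2 h3 h hab.1
        refine ⟨hbx, ?_, hbS⟩
        rintro rfl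
        exact h3 (hex a ⟨h1, h2, b, hab.1, hbx, fun h => h.right.2 rfl⟩)
    exact (aux y hwalk).2.1 rfl
  by_cases hE : Entry r x y u
  · -- an entry
    have hsc : SC r x y u t := by
      by_contra hcon
      exact huS (hex u ⟨hux, huy, t, hut, (hG.ne t htS).1, hcon⟩)
    obtain ⟨ν, hν⟩ := hG.insert {u} (fun _ => 1) 2 (μ t)
      (by intro v hv; have h : v = u := hv; rw [h]; exact huS)
      (by intro v hv; have h : v = u := hv; rw [h]; exact ⟨hux, huy⟩)
      (by intro v _; constructor <;> omega)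
      (by intro v hv; have h : v = u := hv; rw [h]; exact Or.inl hE)
      (by
        intro v hv; have h : v = u := hv; rw [h]
        exact Or.inr (Or.inr ⟨t, htS, hut, hsc, le_rfl⟩))
    refine ⟨S ∪ {u}, ν, ⟨Set.subset_union_left, fun h => ?_⟩, hν⟩
    exact huS (h (Or.inr rfl))
  · have hdeep : Deep r x y u := ⟨hux, huy, hE, fun h => huS (hex u h)⟩
    exact add_deep hG hdeep huS (fun h => huS (hS u hdeep h)) htS hut

theorem free_all [Fintype V] {r : V → V → Prop} {x y : V} (hL : Linked r x y) :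
    ∀ (n : ℕ) (S : Set V) (μ : V → ℕ), Sᶜ.ncard = n → Good r x y S μ →
      (∀ v, Deep r x y v → Exposed r x y v → v ∈ S) →
      ∃ ν : V → ℕ, Good r x y {v | v ≠ x ∧ v ≠ y} ν := by
  intro n
  induction n using Nat.strong_induction_on with
  | _ n ih =>
    intro S μ hn hG hdeep
    by_cases h : ∃ z, z ≠ x ∧ z ≠ y ∧ z ∉ S
    · obtain ⟨z, hzx, hzy, hz⟩ := h
      obtain ⟨S', μ', hSS', hG'⟩ := free_step hL hG hdeep hzx hzy hz
      have hlt : S'ᶜ.ncard < n := by
        rw [← hn]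
        exact Set.ncard_lt_ncard (compl_lt_compl_iff_lt.2 hSS') (Set.toFinite _)
      exact ih _ hlt S' μ' rfl hG' (fun v hv hv' => hSS'.1 (hdeep v hv hv'))
    · push Not at h
      refine ⟨μ, ?_⟩
      have : S = {v | v ≠ x ∧ v ≠ y} := by
        ext v
        exact ⟨fun hv => hG.ne v hv, fun hv => h v hv.1 hv.2⟩
      rwa [this] at hG

/-- The inner vertices of an `(x,y)`-path carry a height. -/
theorem good_of_path {r : V → V → Prop} {x y : V} {p : List V} (hp : IsPath r x y p) :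
    ∃ μ : V → ℕ, Good r x y {v | v ∈ p ∧ v ≠ x ∧ v ≠ y} μ := by
  classical
  obtain ⟨h1, h2, h3, h4⟩ := hp
  have hyp : y ∈ p := List.mem_of_getLast? h2
  have hpos : 0 < p.length := List.length_pos_of_mem hyp
  have hlast : ∀ v ∈ p, p.idxOf v ≤ p.idxOf y := by
    intro v hv
    have e1 : p.idxOf v < p.length := List.idxOf_lt_length_iff.2 hv
    have e2 : p[p.length - 1]'(by omega) = y := by
      rw [List.getLast?_eq_getElem?, List.getElem?_eq_getElem (by omega)] at h2
      exact Option.some.inj h2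
    have e3 : p.idxOf y = p.length - 1 := by
      conv_lhs => rw [← e2]
      exact h4.idxOf_getElem _ _
    omega
  have hfirst : ∀ v ∈ p, p.idxOf x ≤ p.idxOf v := by
    intro v _
    have e2 : p[0]'(by omega) = x := by
      rw [List.head?_eq_getElem?, List.getElem?_eq_getElem hpos] at h1
      exact Option.some.inj h1
    have e3 : p.idxOf x = 0 := by
      conv_lhs => rw [← e2]
      exact h4.idxOf_getElem _ _
    omega
  have hIP : IsPath r x y p := ⟨h1, h2, h3, h4⟩
  refine ⟨fun v => p.idxOf v, ⟨fun v hv => hv.2, ?_, ?_⟩⟩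
  · rintro v ⟨hv, hvx, hvy⟩ hE
    obtain ⟨i, hi, rfl⟩ := List.getElem_of_mem hv
    cases i with
    | zero =>
      exfalso; apply hvx
      rw [List.head?_eq_getElem?, List.getElem?_eq_getElem hi] at h1
      exact Option.some.inj h1
    | succ i =>
      have hmem : p[i] ∈ p := List.getElem_mem _
      have harc : r p[i] p[i + 1] := (List.isChain_iff_getElem.1 h3) i hi
      have hlt : p.idxOf p[i] < p.idxOf p[i + 1] := by
        rw [h4.idxOf_getElem, h4.idxOf_getElem]; omega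
      have hne : p[i] ≠ y := by
        intro h
        have := hlast _ hv
        rw [← h] at this
        omega
      have hsc : SC r x y p[i] p[i + 1] := by
        by_contra hcon
        exact hE ⟨hvx, hvy, p[i], harc, hne, hcon⟩
      exact ⟨p[i], ⟨hmem, hsc.left⟩, harc, hsc, hlt⟩
  · rintro v ⟨hv, hvx, hvy⟩ hE
    obtain ⟨i, hi, rfl⟩ := List.getElem_of_mem hv
    have hi1 : i + 1 < p.length := by
      by_contra hcon
      apply hvy
      have : i = p.length - 1 := by omega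
      subst this
      rw [List.getLast?_eq_getElem?, List.getElem?_eq_getElem hi] at h2
      exact Option.some.inj h2
    have hmem : p[i + 1] ∈ p := List.getElem_mem _
    have harc : r p[i] p[i + 1] := (List.isChain_iff_getElem.1 h3) i hi1
    have hlt : p.idxOf p[i] < p.idxOf p[i + 1] := by
      rw [h4.idxOf_getElem, h4.idxOf_getElem]; omega
    have hne : p[i + 1] ≠ x := by
      intro h
      have := hfirst _ hv
      rw [← h] at this
      omega
    have hsc : SC r x y p[i] p[i + 1] := by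
      by_contra hcon
      exact hE ⟨hvx, hvy, p[i + 1], harc, hne, hcon⟩
    exact ⟨p[i + 1], ⟨hmem, hsc.right⟩, harc, hsc, hlt⟩

/-- The deep exposed vertices suffice. -/
theorem ham_iff_exposed [Fintype V] {r : V → V → Prop} (hpm : PathMergeable r) {x y : V}
    (hxy : x ≠ y) : (∃ p, IsPath r x y p ∧ ∀ v, v ∈ p) ↔ Linked r x y ∧
      ∃ p, IsPath r x y p ∧ ∀ v, Deep r x y v → Exposed r x y v → v ∈ p := by
  constructor
  · rintro ⟨p, hp, hall⟩
    obtain ⟨ρ, hρ⟩ := (ham_iff_lh hpm).1 ⟨p, hp, hall⟩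
    exact ⟨linked_of_lh hxy hρ, p, hp, fun v _ _ => hall v⟩
  · rintro ⟨hL, p, hp, hcov⟩
    obtain ⟨μ, hG⟩ := good_of_path hp
    obtain ⟨ν, hν⟩ := free_all hL _ _ μ rfl hG (fun v h1 h2 => ⟨hcov v h1 h2, h1.1, h1.2.1⟩)
    exact (ham_iff_lh hpm).2 (lh_of_good hxy hL hν)

end PM94
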