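import Pool.Agent.PM94.Merge

/-!
# Vertex sets of paths in path-mergeable digraphs: height functions

In a path-mergeable digraph, the vertex sets of `(x,y)`-paths are exactly the vertex sets of the
acyclic subdigraphs with unique source `x` and unique sink `y`.
-/

namespace PM94

variable {V : Type*}

theorem merge_many {r : V → V → Prop} (hpm : PathMergeable r) {x : V} {S : Set V} {z : V}
    (hz : z ∉ S) (Q : Finset V) (hne : Q.Nonempty) :
    ∀ Λ : Set V, (∀ q ∈ Q, q ∈ S ∧ r q z) → OutTree r x S (Λ ∪ Q) →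
      ∃ t ∈ S, r t z ∧ OutTree r x S (Λ ∪ {t}) := by
  classical
  induction Q using Finset.induction_on with
  | empty => exact absurd hne (by simp)
  | insert q Q hq ih =>
    intro Λ hQ h
    rcases Q.eq_empty_or_nonempty with rfl | hQne
    · exact ⟨q, (hQ q (by simp)).1, (hQ q (by simp)).2, by simpa using h⟩
    · have h' : OutTree r x S ((Λ ∪ {q}) ∪ (Q : Set V)) := by
        have : (Λ ∪ {q}) ∪ (Q : Set V) = Λ ∪ ((insert q Q : Finset V) : Set V) := by
          rw [Finset.coe_insert]; ext v; simp only [Set.mem_union, Set.mem_insert_iff,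
            Set.mem_singleton_iff]; tauto
        rw [this]; exact h
      obtain ⟨t, ht, htz, hT⟩ := ih hQne (Λ ∪ {q}) (fun v hv => hQ v (by simp [hv])) h'
      have h'' : OutTree r x S (Λ ∪ {q, t}) := by
        have : Λ ∪ {q, t} = (Λ ∪ {q}) ∪ {t} := by
          ext v; simp only [Set.mem_union, Set.mem_insert_iff, Set.mem_singleton_iff]; tauto
        rw [this]; exact hT
      exact merge_two hpm (hQ q (by simp)).1 ht (hQ q (by simp)).2 htz hz h''

theorem tree_extend {r : V → V → Prop} {x : V} {S Λ : Set V} {t z : V} (ht : t ∈ S)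
    (htz : r t z) (hz : z ∉ S) (h : OutTree r x S (Λ ∪ {t})) :
    OutTree r x (insert z S) (Λ ∪ {z}) := by
  classical
  obtain ⟨p, d, T, hk⟩ := h
  have hzx : z ≠ x := fun h => hz (h ▸ T.root)
  refine ⟨Function.update p z t, Function.update d z (d t + 1), ⟨Or.inr T.root, ?_⟩, ?_⟩
  · intro v hv hvx
    have htz' : t ≠ z := fun h => hz (h ▸ ht)
    rcases hv with rfl | hv
    · refine ⟨?_, ?_, ?_⟩
      · rw [Function.update_self]; exact Or.inr ht
      · rw [Function.update_self]; exact htz
      · rw [Function.update_self, Function.update_self, Function.update_of_ne htz']; omega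
    · have hvz : v ≠ z := fun h => hz (h ▸ hv)
      obtain ⟨h1, h2, h3⟩ := T.par v hv hvx
      have hpz : p v ≠ z := fun h => hz (h ▸ h1)
      rw [Function.update_of_ne hvz, Function.update_of_ne hvz, Function.update_of_ne hpz]
      exact ⟨Or.inr h1, h2, h3⟩
  · intro v hv hvΛ
    rcases hv with rfl | hv
    · exact absurd (Or.inr rfl) hvΛ
    · by_cases hvt : v = t
      · subst hvt
        exact ⟨z, Or.inl rfl, hzx, by rw [Function.update_self]⟩
      · obtain ⟨u, hu1, hu2, hu3⟩ := hk v hv (by
          rintro (h | h)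
          · exact hvΛ (Or.inl h)
          · exact hvt h)
        have huz : u ≠ z := fun h => hz (h ▸ hu1)
        exact ⟨u, Or.inr hu1, hu2, by rw [Function.update_of_ne huz]; exact hu3⟩

theorem scan {r : V → V → Prop} (hpm : PathMergeable r) {x y : V} (S : Finset V) (hx : x ∈ S)
    (ρ : V → ℕ)
    (hin : ∀ v ∈ S, v ≠ x → ∃ u ∈ S, r u v ∧ ρ u < ρ v)
    (hout : ∀ v ∈ S, v ≠ y → ∃ w ∈ S, r v w ∧ ρ v < ρ w) :
    ∀ n, n + 1 ≤ S.card → ∃ T : Finset V, T ⊆ S ∧ T.card = n + 1 ∧ x ∈ T ∧
      (∀ v ∈ T, ∀ u ∈ S, ρ u < ρ v → u ∈ T) ∧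
      OutTree r x (T : Set V) {v | v = y ∨ ∃ w ∈ S, w ∉ T ∧ r v w} := by
  classical
  have hmin : ∀ u ∈ S, ρ x ≤ ρ u := by
    obtain ⟨m, hm, hmin⟩ := S.exists_min_image ρ ⟨x, hx⟩
    have : m = x := by
      by_contra hne
      obtain ⟨u, hu, -, hlt⟩ := hin m hm hne
      exact absurd (hmin u hu) (by omega)
    subst this
    exact hmin
  intro n
  induction n with
  | zero =>
    intro _
    refine ⟨{x}, by simpa using hx, by simp, by simp, ?_, ?_⟩
    · intro v hv u hu hlt
      simp only [Finset.mem_singleton] at hv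
      subst hv
      exact absurd (hmin u hu) (by omega)
    · refine ⟨id, fun _ => 0, ⟨by simp, ?_⟩, ?_⟩
      · intro v hv hvx
        simp only [Finset.coe_singleton, Set.mem_singleton_iff] at hv
        exact absurd hv hvx
      · intro v hv hvΛ
        simp only [Finset.coe_singleton, Set.mem_singleton_iff] at hv
        subst hv
        exfalso
        apply hvΛ
        by_cases hvy : v = y
        · exact Or.inl hvy
        · obtain ⟨w, hw, hvw, hlt⟩ := hout v hx hvy
          refine Or.inr ⟨w, hw, ?_, hvw⟩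
          simp only [Finset.mem_singleton]
          rintro rfl
          exact lt_irrefl _ hlt
  | succ n ih =>
    intro hcard
    obtain ⟨T, hTS, hTc, hxT, hdown, hT⟩ := ih (by omega)
    have hne : (S \ T).Nonempty := by
      rw [← Finset.card_pos, Finset.card_sdiff_of_subset hTS]; omega
    obtain ⟨z, hz, hzmin⟩ := (S \ T).exists_min_image ρ hne
    rw [Finset.mem_sdiff] at hz
    obtain ⟨hzS, hzT⟩ := hz
    have hbelow : ∀ u ∈ S, ρ u < ρ z → u ∈ T := by
      intro u hu hlt
      by_contra hcon
      exact absurd (hzmin u (Finset.mem_sdiff.2 ⟨hu, hcon⟩)) (by omega)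
    have hzx : z ≠ x := fun h => hzT (h ▸ hxT)
    obtain ⟨u, hu, huz, hult⟩ := hin z hzS hzx
    have huT := hbelow u hu hult
    let Λ' : Set V := {v | v = y ∨ ∃ w ∈ S, w ∉ insert z T ∧ r v w}
    let Q : Finset V := insert u (T.filter (fun v => r v z))
    have hQ : ∀ q ∈ Q, q ∈ (T : Set V) ∧ r q z := by
      intro q hq
      rcases Finset.mem_insert.1 hq with rfl | hq
      · exact ⟨huT, huz⟩
      · rw [Finset.mem_filter] at hq
        exact hq
    have hT' : OutTree r x (T : Set V) (Λ' ∪ Q) := by
      obtain ⟨p, d, hp, hk⟩ := hT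
      refine ⟨p, d, hp, ?_⟩
      intro v hv hvΛ
      apply hk v hv
      rintro (h | ⟨w, hw, hwT, hvw⟩)
      · exact hvΛ (Or.inl (Or.inl h))
      · by_cases hwz : w = z
        · subst hwz
          exact hvΛ (Or.inr (Finset.mem_coe.2 (Finset.mem_insert_of_mem
            (Finset.mem_filter.2 ⟨hv, hvw⟩))))
        · refine hvΛ (Or.inl (Or.inr ⟨w, hw, ?_, hvw⟩))
          rw [Finset.mem_insert]
          rintro (h | h)
          · exact hwz h
          · exact hwT h
    obtain ⟨t, ht, htz, hT''⟩ := merge_many hpm (z := z) (S := (T : Set V))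
      (by simpa using hzT) Q ⟨u, by simp [Q]⟩ Λ' hQ hT'
    have hfin := tree_extend ht htz (by simpa using hzT) hT''
    have hzΛ : z ∈ Λ' := by
      by_cases hzy : z = y
      · exact Or.inl hzy
      · obtain ⟨w, hw, hzw, hlt⟩ := hout z hzS hzy
        refine Or.inr ⟨w, hw, ?_, hzw⟩
        rw [Finset.mem_insert]
        rintro (h | h)
        · subst h; exact lt_irrefl _ hlt
        · exact hzT (hdown w h z hzS hlt)
    refine ⟨insert z T, ?_, ?_, ?_, ?_, ?_⟩
    · intro v hv
      rcases Finset.mem_insert.1 hv with rfl | hv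
      · exact hzS
      · exact hTS hv
    · rw [Finset.card_insert_of_notMem hzT, hTc]
    · exact Finset.mem_insert_of_mem hxT
    · intro v hv u' hu' hlt
      rcases Finset.mem_insert.1 hv with rfl | hv
      · exact Finset.mem_insert_of_mem (hbelow u' hu' hlt)
      · exact Finset.mem_insert_of_mem (hdown v hv u' hu' hlt)
    · rw [Finset.coe_insert]
      have : Λ' ∪ {z} = Λ' := Set.union_eq_self_of_subset_right (by simpa using hzΛ)
      rw [this] at hfin
      exact hfin

theorem tree_path {r : V → V → Prop} {x y : V} {S : Finset V} (hy : y ∈ S)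
    (h : OutTree r x (S : Set V) {y}) :
    ∃ l : List V, IsPath r x y l ∧ ∀ v, v ∈ l ↔ v ∈ S := by
  classical
  obtain ⟨p, d, T, hk⟩ := h
  obtain ⟨s, α, hs, hsS, hc, hl, -⟩ := climb T {x} rfl (d y) y rfl hy
  have hsx : s = x := hs
  subst hsx
  have hreach : ∀ n, ∀ v ∈ S, S.sup d - d v = n → Relation.ReflTransGen (Kid s (S : Set V) p) v y := by
    intro n
    induction n using Nat.strong_induction_on with
    | _ n ih =>
      intro v hv hn
      by_cases hvy : v = y
      · subst hvy; exact .refl
      · obtain ⟨u, hu⟩ := hk v hv (by simpa using hvy)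
        obtain ⟨-, hlt, -, huS⟩ := hu.rel T
        have h1 : d v ≤ S.sup d := Finset.le_sup hv
        have h2 : d u ≤ S.sup d := Finset.le_sup huS
        exact Relation.ReflTransGen.head hu (ih (S.sup d - d u) (by omega) u huS rfl)
  have hanc : ∀ v, Relation.ReflTransGen (Kid s (S : Set V) p) v y → v ∈ s :: α := by
    intro v hv
    induction hv using Relation.ReflTransGen.head_induction_on with
    | refl => exact List.mem_of_getLast? hl
    | @head a c hab _ ih =>
      rcases List.mem_cons.1 ih with h | h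
      · exact absurd h hab.2.1
      · have := (chain_rank T hc c h).2.2.2
        rw [hab.2.2] at this
        exact this
  refine ⟨s :: α, ⟨by simp, hl, chain_rel T hc, chain_nodup T hc⟩, ?_⟩
  intro v
  constructor
  · intro hv
    rcases List.mem_cons.1 hv with rfl | hv
    · exact hsS
    · exact (chain_rank T hc v hv).2.1
  · intro hv
    exact hanc v (hreach _ v hv rfl)

/-- **Merging acyclic subdigraphs.** In a path-mergeable digraph, if `S` carries a height function
for which every vertex but `x` has a lower in-neighbour in `S` and every vertex but `y` has a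
higher out-neighbour in `S`, then `S` is the vertex set of an `(x,y)`-path. -/
theorem path_of_height {r : V → V → Prop} (hpm : PathMergeable r) {x y : V} {S : Finset V}
    (hx : x ∈ S) (hy : y ∈ S) (ρ : V → ℕ)
    (hin : ∀ v ∈ S, v ≠ x → ∃ u ∈ S, r u v ∧ ρ u < ρ v)
    (hout : ∀ v ∈ S, v ≠ y → ∃ w ∈ S, r v w ∧ ρ v < ρ w) :
    ∃ l : List V, IsPath r x y l ∧ ∀ v, v ∈ l ↔ v ∈ S := by
  classical
  have hpos : 0 < S.card := Finset.card_pos.2 ⟨x, hx⟩
  obtain ⟨T, hTS, hTc, hxT, -, hT⟩ := scan hpm S hx ρ hin hout (S.card - 1) (by omega)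
  have hTeq : T = S := Finset.eq_of_subset_of_card_le hTS (by omega)
  subst hTeq
  apply tree_path hy
  obtain ⟨p, d, hp, hk⟩ := hT
  refine ⟨p, d, hp, ?_⟩
  intro v hv hvy
  apply hk v hv
  rintro (h | ⟨w, hw, hwT, -⟩)
  · exact hvy h
  · exact hwT hw

/-- Conversely, every path gives a height function. -/
theorem height_of_path {r : V → V → Prop} {x y : V} {l : List V} (hl : IsPath r x y l) :
    ∃ ρ : V → ℕ, (∀ v ∈ l, v ≠ x → ∃ u ∈ l, r u v ∧ ρ u < ρ v) ∧
      (∀ v ∈ l, v ≠ y → ∃ w ∈ l, r v w ∧ ρ v < ρ w) := by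
  classical
  obtain ⟨h1, h2, h3, h4⟩ := hl
  refine ⟨fun v => l.idxOf v, ?_, ?_⟩
  · intro v hv hvx
    obtain ⟨i, hi, rfl⟩ := List.getElem_of_mem hv
    cases i with
    | zero =>
      exfalso; apply hvx
      rw [List.head?_eq_getElem?, List.getElem?_eq_getElem hi] at h1
      exact Option.some.inj h1
    | succ i =>
      refine ⟨l[i], List.getElem_mem _, (List.isChain_iff_getElem.1 h3) i hi, ?_⟩
      change l.idxOf l[i] < l.idxOf l[i + 1]
      rw [h4.idxOf_getElem, h4.idxOf_getElem]
      omega
  · intro v hv hvy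
    obtain ⟨i, hi, rfl⟩ := List.getElem_of_mem hv
    have hi1 : i + 1 < l.length := by
      by_contra hcon
      apply hvy
      have : i = l.length - 1 := by omega
      subst this
      rw [List.getLast?_eq_getElem?, List.getElem?_eq_getElem hi] at h2
      exact Option.some.inj h2
    refine ⟨l[i + 1], List.getElem_mem _, (List.isChain_iff_getElem.1 h3) i hi1, ?_⟩
    change l.idxOf l[i] < l.idxOf l[i + 1]
    rw [h4.idxOf_getElem, h4.idxOf_getElem]
    omega

end PM94
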