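import Mathlib

/-!
# Heights in a strong component: skeletons

`R` is the arc relation inside a component, `A` the set of entries, `B` the set of exits and `W`
the set of the other vertices of the component.
-/

namespace PM94

open Relation

variable {V : Type*}

/-- There is a walk with at least one arc from `u` to `w` all of whose interior vertices lie in
`U`. -/
def Through (r : V → V → Prop) (U : Set V) (u w : V) : Prop :=
  ∃ t, ReflTransGen (fun a b => r a b ∧ b ∈ U) u t ∧ r t w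

theorem Through.flip {r : V → V → Prop} {U : Set V} {u w : V} (h : Through r U u w) :
    Through (flip r) U w u := by
  obtain ⟨t, ht, hw⟩ := h
  induction ht generalizing w with
  | refl => exact ⟨w, .refl, hw⟩
  | tail _ hbc ih =>
    obtain ⟨t', h1, h2⟩ := ih hbc.1
    exact ⟨t', ReflTransGen.head ⟨hw, hbc.2⟩ h1, h2⟩

theorem through_flip {r : V → V → Prop} {U : Set V} {u w : V} :
    Through (flip r) U w u ↔ Through r U u w :=
  ⟨fun h => h.flip, fun h => h.flip⟩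

/-- Every vertex of `S` outside `A` has a lower in-neighbour in `S`, and every vertex of `S`
outside `B` has a higher out-neighbour in `S`. -/
def LH {α : Type*} [Preorder α] (R : V → V → Prop) (A B S : Set V) (μ : V → α) : Prop :=
  (∀ v ∈ S, v ∉ A → ∃ u ∈ S, R u v ∧ μ u < μ v) ∧
    ∀ v ∈ S, v ∉ B → ∃ w ∈ S, R v w ∧ μ v < μ w

theorem LH.dual {α : Type*} [Preorder α] {R : V → V → Prop} {A B S : Set V} {μ : V → α}
    (h : LH R A B S μ) : LH (flip R) B A S (fun v => OrderDual.toDual (μ v)) :=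
  ⟨h.2, h.1⟩

theorem bfs (Q : V → V → Prop) (X₀ : Set V) :
    ∃ d : V → ℕ, ∀ v, v ∉ X₀ → (∃ s ∈ X₀, ReflTransGen Q s v) →
      ∃ u, Q u v ∧ d u < d v ∧ ∃ s ∈ X₀, ReflTransGen Q s u := by
  classical
  let lev : ℕ → V → Prop := fun n =>
    Nat.rec (motive := fun _ => V → Prop) (fun v => v ∈ X₀) (fun _ p v => ∃ u, p u ∧ Q u v) n
  have hlev0 : ∀ v, lev 0 v ↔ v ∈ X₀ := fun v => Iff.rfl
  have hlevS : ∀ n v, lev (n + 1) v ↔ ∃ u, lev n u ∧ Q u v := fun n v => Iff.rfl
  have hreach : ∀ n v, lev n v → ∃ s ∈ X₀, ReflTransGen Q s v := by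
    intro n
    induction n with
    | zero => intro v hv; exact ⟨v, (hlev0 v).1 hv, .refl⟩
    | succ n ih =>
      intro v hv
      obtain ⟨u, hu, huv⟩ := (hlevS n v).1 hv
      obtain ⟨s, hs, hsu⟩ := ih u hu
      exact ⟨s, hs, hsu.tail huv⟩
  have hreach' : ∀ s ∈ X₀, ∀ v, ReflTransGen Q s v → ∃ n, lev n v := by
    intro s hs v hv
    induction hv with
    | refl => exact ⟨0, (hlev0 s).2 hs⟩
    | tail _ hbc ih =>
      obtain ⟨n, hn⟩ := ih
      exact ⟨n + 1, (hlevS n _).2 ⟨_, hn, hbc⟩⟩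
  refine ⟨fun v => if h : ∃ n, lev n v then Nat.find h else 0, ?_⟩
  rintro v hv ⟨s, hs, hsv⟩
  have hex := hreach' s hs v hsv
  have hspec := Nat.find_spec hex
  have hne : Nat.find hex ≠ 0 := by
    intro h0
    rw [h0] at hspec
    exact hv ((hlev0 v).1 hspec)
  obtain ⟨m, hm⟩ := Nat.exists_eq_succ_of_ne_zero hne
  rw [hm] at hspec
  obtain ⟨u, hu, huv⟩ := (hlevS m v).1 hspec
  refine ⟨u, huv, ?_, hreach m u hu⟩
  have hexu : ∃ n, lev n u := ⟨m, hu⟩
  simp only [dif_pos hex, dif_pos hexu]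
  have := Nat.find_min' hexu hu
  omega

theorem rtg_mem {R : V → V → Prop} {U : Set V} {s v : V}
    (h : ReflTransGen (fun a b => R a b ∧ b ∈ U) s v) : v = s ∨ v ∈ U := by
  induction h with
  | refl => exact Or.inl rfl
  | tail _ hbc _ => exact Or.inr hbc.2

/-- The vertices that can be reached from `X` through `U` get ranks as low as possible. -/
theorem in_part (R : V → V → Prop) (X : Finset V) (ρ : V → ℤ) (U : Set V)
    (hUX : ∀ v ∈ U, v ∉ X) :
    ∃ (I : Set V) (σ : V → ℤ) (d : V → ℕ), (∀ v ∈ I, v ∈ U) ∧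
      (∀ v ∈ I, ∃ u, R u v ∧ ((u ∈ X ∧ ρ u ≤ σ v) ∨
        (u ∈ I ∧ (σ u < σ v ∨ (σ u = σ v ∧ d u < d v))))) ∧
      ∀ u ∈ X, ∀ w, Through R U u w → ∃ t, R t w ∧ (t = u ∨ (t ∈ I ∧ σ t ≤ ρ u)) := by
  classical
  let Q : V → V → Prop := fun a b => R a b ∧ b ∈ U
  let I : Set V := {v | v ∈ U ∧ ∃ s ∈ X, ReflTransGen Q s v}
  have hmin : ∀ v, ∃ s : V, v ∈ I → s ∈ X ∧ ReflTransGen Q s v ∧
      ∀ s' ∈ X, ReflTransGen Q s' v → ρ s ≤ ρ s' := by
    intro v
    by_cases hv : v ∈ I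
    · obtain ⟨-, s₀, hs₀, hr⟩ := hv
      obtain ⟨s, hs, hsm⟩ := (X.filter fun s => ReflTransGen Q s v).exists_min_image ρ
        ⟨s₀, by simp [hs₀, hr]⟩
      rw [Finset.mem_filter] at hs
      exact ⟨s, fun _ => ⟨hs.1, hs.2, fun s' h1 h2 => hsm s' (Finset.mem_filter.2 ⟨h1, h2⟩)⟩⟩
    · exact ⟨v, fun h => absurd h hv⟩
  choose src hsrc using hmin
  choose D hD using fun j : ℤ => bfs Q {s | s ∈ X ∧ ρ s ≤ j}
  refine ⟨I, fun v => ρ (src v), fun v => D (ρ (src v)) v, fun v hv => hv.1, ?_, ?_⟩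
  · intro v hv
    obtain ⟨h1, h2, h3⟩ := hsrc v hv
    obtain ⟨u, ⟨huv, -⟩, hlt, s, ⟨hsX, hsj⟩, hsu⟩ := hD (ρ (src v)) v
      (fun h => hUX v hv.1 h.1) ⟨src v, ⟨h1, le_rfl⟩, h2⟩
    refine ⟨u, huv, ?_⟩
    rcases rtg_mem hsu with rfl | huU
    · exact Or.inl ⟨hsX, hsj⟩
    · right
      have huI : u ∈ I := ⟨huU, s, hsX, hsu⟩
      refine ⟨huI, ?_⟩
      obtain ⟨k1, k2, k3⟩ := hsrc u huI
      have hle : ρ (src u) ≤ ρ (src v) := (k3 s hsX hsu).trans hsj
      rcases hle.lt_or_eq with h | h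
      · exact Or.inl h
      · right
        refine ⟨h, ?_⟩
        change D (ρ (src u)) u < D (ρ (src v)) v
        rw [h]; exact hlt
  · rintro u hu w ⟨t, ht, htw⟩
    refine ⟨t, htw, ?_⟩
    rcases rtg_mem ht with rfl | htU
    · exact Or.inl rfl
    · right
      have htI : t ∈ I := ⟨htU, u, hu, ht⟩
      exact ⟨htI, (hsrc t htI).2.2 u hu ht⟩

/-- Heights with values in a preorder can be replaced by heights with values in `ℕ`. -/
theorem LH.nat [Fintype V] {α : Type*} [Preorder α] {R : V → V → Prop} {A B S : Set V}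
    {μ : V → α} (h : LH R A B S μ) : ∃ ν : V → ℕ, LH R A B S ν := by
  classical
  have key : ∀ u v, μ u < μ v → (Finset.univ.filter fun z => μ z < μ u).card <
      (Finset.univ.filter fun z => μ z < μ v).card := by
    intro u v huv
    apply Finset.card_lt_card
    rw [Finset.ssubset_iff_of_subset]
    · exact ⟨u, by simp [huv], by simp⟩
    · intro z hz
      simp only [Finset.mem_filter, Finset.mem_univ, true_and] at hz ⊢
      exact hz.trans huv
  refine ⟨fun v => (Finset.univ.filter fun z => μ z < μ v).card, ?_, ?_⟩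
  · intro v hv hvA
    obtain ⟨u, hu, huv, hlt⟩ := h.1 v hv hvA
    exact ⟨u, hu, huv, key _ _ hlt⟩
  · intro v hv hvB
    obtain ⟨u, hu, huv, hlt⟩ := h.2 v hv hvB
    exact ⟨u, hu, huv, key _ _ hlt⟩

/-- A skeleton extends to a height. -/
theorem height_of_skeleton [Fintype V] {R : V → V → Prop} {A B K W : Set V} {X : Finset V}
    {ρ : V → ℕ} (hK : ∀ v ∈ K, v ∉ X → v ∈ A ∨ v ∈ B)
    (hlow : ∀ v ∈ X, v ∉ A → v ∉ W → ∃ u ∈ X, R u v ∧ ρ u < ρ v)
    (hhigh : ∀ v ∈ X, v ∉ B → v ∉ W → ∃ u ∈ X, R v u ∧ ρ v < ρ u)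
    (hbelow : ∀ w ∈ X, w ∈ W → ∃ u ∈ X, ρ u < ρ w ∧ Through R {v | v ∈ K ∧ v ∉ A ∧ v ∉ X} u w)
    (habove : ∀ w ∈ X, w ∈ W → ∃ u ∈ X, ρ w < ρ u ∧ Through R {v | v ∈ K ∧ v ∉ B ∧ v ∉ X} w u) :
    ∃ (S : Set V) (ν : V → ℕ), (∀ v ∈ X, v ∈ S) ∧ (∀ v ∈ S, v ∈ X ∨ v ∈ K) ∧
      LH R A B S ν := by
  classical
  obtain ⟨I, σ, d, hIU, hI, hIX⟩ := in_part R X (fun v => (ρ v : ℤ))
    {v | v ∈ K ∧ v ∉ A ∧ v ∉ X} (fun v hv => hv.2.2)
  obtain ⟨O, τ, e, hOU, hO, hOX⟩ := in_part (flip R) X (fun v => -(ρ v : ℤ))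
    {v | v ∈ K ∧ v ∉ B ∧ v ∉ X} (fun v hv => hv.2.2)
  have hIO : ∀ v, v ∈ I → v ∉ O := by
    intro v h1 h2
    obtain ⟨hk, ha, hx⟩ := hIU v h1
    obtain ⟨-, hb, -⟩ := hOU v h2
    rcases hK v hk hx with h | h
    · exact ha h
    · exact hb h
  let μ : V → ℤ ×ₗ ℤ := fun v => if v ∈ X then toLex ((ρ v : ℤ), 0) else
    if v ∈ I then toLex (σ v, (d v : ℤ) + 1) else toLex (-(τ v), -((e v : ℤ) + 1))
  have hμX : ∀ v ∈ X, μ v = toLex ((ρ v : ℤ), 0) := fun v hv => if_pos hv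
  have hμI : ∀ v ∈ I, μ v = toLex (σ v, (d v : ℤ) + 1) := fun v hv => by
    simp only [μ]
    rw [if_neg (hIU v hv).2.2, if_pos hv]
  have hμO : ∀ v ∈ O, μ v = toLex (-(τ v), -((e v : ℤ) + 1)) := fun v hv => by
    simp only [μ]
    rw [if_neg (hOU v hv).2.2, if_neg (fun h => hIO v h hv)]
  have main : LH R A B ({v | v ∈ X} ∪ (I ∪ O)) μ := by
    constructor
    · rintro v (hv | hv | hv) hvA
      · have hv' : v ∈ X := hv
        by_cases hvW : v ∈ W
        · obtain ⟨u, hu, hlt, hth⟩ := hbelow v hv' hvW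
          obtain ⟨t, htv, ht⟩ := hIX u hu v hth
          rcases ht with rfl | ⟨htI, hle⟩
          · refine ⟨t, Or.inl hu, htv, ?_⟩
            rw [hμX t hu, hμX v hv', Prod.Lex.toLex_lt_toLex]
            left; exact Int.ofNat_lt.2 hlt
          · refine ⟨t, Or.inr (Or.inl htI), htv, ?_⟩
            rw [hμI t htI, hμX v hv', Prod.Lex.toLex_lt_toLex]
            left
            have : (ρ u : ℤ) < ρ v := by exact_mod_cast hlt
            exact lt_of_le_of_lt hle this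
        · obtain ⟨u, hu, huv, hlt⟩ := hlow v hv' hvA hvW
          refine ⟨u, Or.inl hu, huv, ?_⟩
          rw [hμX u hu, hμX v hv', Prod.Lex.toLex_lt_toLex]
          left; exact Int.ofNat_lt.2 hlt
      · obtain ⟨u, huv, h⟩ := hI v hv
        rcases h with ⟨huX, hle⟩ | ⟨huI, h⟩
        · refine ⟨u, Or.inl huX, huv, ?_⟩
          rw [hμX u huX, hμI v hv, Prod.Lex.toLex_lt_toLex]
          rcases hle.lt_or_eq with h | h
          · exact Or.inl h
          · right; exact ⟨h, by positivity⟩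
        · refine ⟨u, Or.inr (Or.inl huI), huv, ?_⟩
          rw [hμI u huI, hμI v hv, Prod.Lex.toLex_lt_toLex]
          rcases h with h | ⟨h1, h2⟩
          · exact Or.inl h
          · right
            refine ⟨h1, ?_⟩
            have : (d u : ℤ) < d v := by exact_mod_cast h2
            simpa using this
      · obtain ⟨hk, hb, hx⟩ := hOU v hv
        rcases hK v hk hx with h | h
        · exact absurd h hvA
        · exact absurd h hb
    · rintro v (hv | hv | hv) hvB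
      · have hv' : v ∈ X := hv
        by_cases hvW : v ∈ W
        · obtain ⟨u, hu, hlt, hth⟩ := habove v hv' hvW
          obtain ⟨t, htv, ht⟩ := hOX u hu v hth.flip
          rcases ht with rfl | ⟨htO, hle⟩
          · refine ⟨t, Or.inl hu, htv, ?_⟩
            rw [hμX t hu, hμX v hv', Prod.Lex.toLex_lt_toLex]
            left; exact Int.ofNat_lt.2 hlt
          · refine ⟨t, Or.inr (Or.inr htO), htv, ?_⟩
            rw [hμO t htO, hμX v hv', Prod.Lex.toLex_lt_toLex]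
            left
            have : (ρ v : ℤ) < ρ u := by exact_mod_cast hlt
            simp only at hle ⊢
            omega
        · obtain ⟨u, hu, huv, hlt⟩ := hhigh v hv' hvB hvW
          refine ⟨u, Or.inl hu, huv, ?_⟩
          rw [hμX u hu, hμX v hv', Prod.Lex.toLex_lt_toLex]
          left; exact Int.ofNat_lt.2 hlt
      · obtain ⟨hk, ha, hx⟩ := hIU v hv
        rcases hK v hk hx with h | h
        · exact absurd h ha
        · exact absurd h hvB
      · obtain ⟨u, huv, h⟩ := hO v hv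
        rcases h with ⟨huX, hle⟩ | ⟨huO, h⟩
        · refine ⟨u, Or.inl huX, huv, ?_⟩
          rw [hμX u huX, hμO v hv, Prod.Lex.toLex_lt_toLex]
          simp only at hle ⊢
          omega
        · refine ⟨u, Or.inr (Or.inr huO), huv, ?_⟩
          rw [hμO u huO, hμO v hv, Prod.Lex.toLex_lt_toLex]
          simp only
          omega
  obtain ⟨ν, hν⟩ := main.nat
  refine ⟨_, ν, fun v hv => Or.inl hv, ?_, hν⟩
  rintro v (hv | hv | hv)
  · exact Or.inl hv
  · exact Or.inr (hIU v hv).1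
  · exact Or.inr (hOU v hv).1

end PM94
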