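import Pool.Agent.PM94.Comp

/-!
# Hamiltonian `(x,y)`-paths in path-mergeable digraphs: main results
-/

namespace PM94

open Relation

variable {V : Type*}

/-- The vertices that reach `v` in the digraph with `x`, `y` deleted. -/
def anc (r : V → V → Prop) (x y v : V) : Set V := {z | Reach r {x, y}ᶜ z v}

theorem anc_eq {r : V → V → Prop} {x y u v : V} (h : SC r x y u v) :
    anc r x y u = anc r x y v := by
  ext z
  exact ⟨fun hz => hz.trans h.1, fun hz => hz.trans h.2⟩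

theorem anc_lt [Fintype V] {r : V → V → Prop} {x y u v : V} (hu : u ≠ x ∧ u ≠ y)
    (hv : v ≠ x ∧ v ≠ y) (huv : r u v) (h : ¬ SC r x y u v) :
    (anc r x y u).ncard < (anc r x y v).ncard := by
  have harc : Reach r {x, y}ᶜ u v :=
    Reach.arc (mem_compl_pair.2 hu) (mem_compl_pair.2 hv) huv
  apply Set.ncard_lt_ncard _ (Set.toFinite _)
  refine ⟨fun z hz => hz.trans harc, fun hcon => ?_⟩
  exact h ⟨harc, hcon (show v ∈ anc r x y v from Reach.refl (mem_compl_pair.2 hv))⟩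

theorem in_ne {r : V → V → Prop} {x y : V} {U : Set V} (hxy : x ≠ y) (h : Reach r U x y) :
    (∃ u, u ≠ y ∧ r u y) ∧ ∃ w, w ≠ x ∧ r x w := by
  obtain ⟨-, h⟩ := h
  constructor
  · have aux : ∀ w, ReflTransGen (fun a b => r a b ∧ b ∈ U) x w → w = y → ∃ u, u ≠ y ∧ r u y := by
      intro w hw
      induction hw with
      | refl => exact fun h => absurd h hxy
      | @tail a b _ hab ih =>
        intro hb
        by_cases ha : a = y
        · exact ih ha
        · exact ⟨a, ha, hb ▸ hab.1⟩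
    exact aux y h rfl
  · have aux : ∀ w, ReflTransGen (fun a b => r a b ∧ b ∈ U) w y → w = x → ∃ w, w ≠ x ∧ r x w := by
      intro w hw
      induction hw using ReflTransGen.head_induction_on with
      | refl => exact fun h => absurd h.symm hxy
      | @head a b hab _ ih =>
        intro ha
        by_cases hb : b = x
        · exact ih hb
        · exact ⟨b, hb, ha ▸ hab.1⟩
    exact aux x h rfl

theorem lh_of_good [Fintype V] {r : V → V → Prop} {x y : V} (hxy : x ≠ y) (hL : Linked r x y)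
    {μ : V → ℕ} (hG : Good r x y {v | v ≠ x ∧ v ≠ y} μ) :
    ∃ ρ : V → ℕ, LH r {x} {y} Set.univ ρ := by
  classical
  let N : ℕ := (Set.univ : Set V).ncard
  let lam : V → ℕ := fun v => (anc r x y v).ncard
  have hlam : ∀ v, lam v ≤ N := fun v => Set.ncard_le_ncard (Set.subset_univ _) (Set.toFinite _)
  let f : V → ℕ ×ₗ ℕ := fun v => if v = x then toLex (0, 0) else
    if v = y then toLex (N + 2, 0) else toLex (lam v + 1, μ v)
  have fx : f x = toLex (0, 0) := if_pos rfl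
  have fy : f y = toLex (N + 2, 0) := (if_neg hxy.symm).trans (if_pos rfl)
  have fv : ∀ v, v ≠ x → v ≠ y → f v = toLex (lam v + 1, μ v) := by
    intro v h1 h2
    simp only [f]; rw [if_neg h1, if_neg h2]
  have fpos : ∀ v, v ≠ x → f x < f v := by
    intro v hv
    by_cases hvy : v = y
    · rw [hvy, fx, fy, Prod.Lex.toLex_lt_toLex]
      left; simp only; omega
    · rw [fx, fv v hv hvy, Prod.Lex.toLex_lt_toLex]
      left; simp only; omega
  have ftop : ∀ v, v ≠ y → f v < f y := by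
    intro v hv
    by_cases hvx : v = x
    · rw [hvx]; exact fpos y hxy.symm
    · rw [fy, fv v hvx hv, Prod.Lex.toLex_lt_toLex]
      left
      have := hlam v
      simp only; omega
  have fcomp : ∀ u v, (u ≠ x ∧ u ≠ y) → (v ≠ x ∧ v ≠ y) → r u v → ¬ SC r x y u v → f u < f v := by
    intro u v hu hv huv hsc
    rw [fv u hu.1 hu.2, fv v hv.1 hv.2, Prod.Lex.toLex_lt_toLex]
    left
    have := anc_lt hu hv huv hsc
    simp only [lam]; omega
  have fsc : ∀ u v, SC r x y u v → μ u < μ v → f u < f v := by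
    intro u v hsc hlt
    rw [fv u hsc.left.1 hsc.left.2, fv v hsc.right.1 hsc.right.2, Prod.Lex.toLex_lt_toLex]
    right
    refine ⟨?_, hlt⟩
    simp only [lam]
    rw [anc_eq hsc]
  obtain ⟨⟨a, hay, hra⟩, ⟨b, hbx, hrb⟩⟩ := in_ne hxy hL.1
  have main : LH r {x} {y} Set.univ f := by
    constructor
    · intro v _ hvx
      have hvx' : v ≠ x := hvx
      by_cases hvy : v = y
      · subst hvy
        exact ⟨a, trivial, hra, ftop a hay⟩
      · by_cases hE : Entry r x y v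
        · obtain ⟨-, -, u, huv, huy, hsc⟩ := hE
          refine ⟨u, trivial, huv, ?_⟩
          by_cases hux : u = x
          · rw [hux]; exact fpos v hvx'
          · exact fcomp u v ⟨hux, huy⟩ ⟨hvx', hvy⟩ huv hsc
        · obtain ⟨u, -, huv, hsc, hlt⟩ := hG.low v ⟨hvx', hvy⟩ hE
          exact ⟨u, trivial, huv, fsc u v hsc hlt⟩
    · intro v _ hvy
      have hvy' : v ≠ y := hvy
      by_cases hvx : v = x
      · subst hvx
        exact ⟨b, trivial, hrb, fpos b hbx⟩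
      · by_cases hE : Exit r x y v
        · obtain ⟨-, -, u, huv, hux, hsc⟩ := hE
          refine ⟨u, trivial, huv, ?_⟩
          by_cases huy : u = y
          · rw [huy]; exact ftop v hvy'
          · exact fcomp v u ⟨hvx, hvy'⟩ ⟨hux, huy⟩ huv hsc
        · obtain ⟨u, -, huv, hsc, hlt⟩ := hG.high v ⟨hvx, hvy'⟩ hE
          exact ⟨u, trivial, huv, fsc v u hsc hlt⟩
  exact main.nat

theorem top_of_lh [Fintype V] {r : V → V → Prop} {x y : V} {ρ : V → ℕ}
    (h : LH r {x} {y} Set.univ ρ) : ∀ v, ρ x ≤ ρ v ∧ ρ v ≤ ρ y := by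
  classical
  intro v
  constructor
  · obtain ⟨m, -, hm⟩ := (Finset.univ : Finset V).exists_min_image ρ ⟨v, Finset.mem_univ v⟩
    have : m = x := by
      by_contra hne
      obtain ⟨u, -, -, hlt⟩ := h.1 m trivial hne
      have := hm u (Finset.mem_univ u)
      omega
    rw [← this]; exact hm v (Finset.mem_univ v)
  · obtain ⟨m, -, hm⟩ := (Finset.univ : Finset V).exists_max_image ρ ⟨v, Finset.mem_univ v⟩
    have : m = y := by
      by_contra hne
      obtain ⟨u, -, -, hlt⟩ := h.2 m trivial hne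
      have := hm u (Finset.mem_univ u)
      omega
    rw [← this]; exact hm v (Finset.mem_univ v)

theorem good_of_lh [Fintype V] {r : V → V → Prop} {x y : V} {ρ : V → ℕ}
    (h : LH r {x} {y} Set.univ ρ) : Good r x y {v | v ≠ x ∧ v ≠ y} ρ := by
  have htop := top_of_lh h
  refine ⟨fun v hv => hv, ?_, ?_⟩
  · rintro v ⟨hvx, hvy⟩ hE
    obtain ⟨u, -, huv, hlt⟩ := h.1 v trivial hvx
    have huy : u ≠ y := by
      rintro rfl
      have := (htop v).2
      omega
    have hsc : SC r x y u v := by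
      by_contra hcon
      exact hE ⟨hvx, hvy, u, huv, huy, hcon⟩
    exact ⟨u, hsc.left, huv, hsc, hlt⟩
  · rintro v ⟨hvx, hvy⟩ hE
    obtain ⟨u, -, huv, hlt⟩ := h.2 v trivial hvy
    have hux : u ≠ x := by
      rintro rfl
      have := (htop v).1
      omega
    have hsc : SC r x y v u := by
      by_contra hcon
      exact hE ⟨hvx, hvy, u, huv, hux, hcon⟩
    exact ⟨u, hsc.right, huv, hsc, hlt⟩

theorem linked_of_lh [Fintype V] {r : V → V → Prop} {x y : V} (hxy : x ≠ y) {ρ : V → ℕ}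
    (h : LH r {x} {y} Set.univ ρ) : Linked r x y := by
  have htop := top_of_lh h
  have hdown : ∀ n v, ρ v = n → v ≠ y → Reach r {y}ᶜ x v := by
    intro n
    induction n using Nat.strong_induction_on with
    | _ n ih =>
      intro v hn hvy
      by_cases hvx : v = x
      · rw [hvx]; exact Reach.refl hxy
      · obtain ⟨u, -, huv, hlt⟩ := h.1 v trivial hvx
        have huy : u ≠ y := by
          rintro rfl
          have := (htop v).2
          omega
        obtain ⟨h1, h2⟩ := ih (ρ u) (by omega) u rfl huy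
        exact ⟨h1, h2.tail ⟨huv, hvy⟩⟩
  have hup : ∀ n v, ρ y - ρ v = n → v ≠ x → Reach r {x}ᶜ v y := by
    intro n
    induction n using Nat.strong_induction_on with
    | _ n ih =>
      intro v hn hvx
      by_cases hvy : v = y
      · rw [hvy]; exact Reach.refl hxy.symm
      · obtain ⟨u, -, huv, hlt⟩ := h.2 v trivial hvy
        have hux : u ≠ x := by
          rintro rfl
          have := (htop v).1
          omega
        have h3 := (htop u).2
        obtain ⟨h1, h2⟩ := ih (ρ y - ρ u) (by omega) u rfl hux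
        exact ⟨hvx, ReflTransGen.head ⟨huv, hux⟩ h2⟩
  refine ⟨?_, fun v hvx hvy => ⟨hdown _ v rfl hvy, hup _ v rfl hvx⟩⟩
  obtain ⟨u, -, huy, hlt⟩ := h.1 y trivial hxy.symm
  have huy' : u ≠ y := by
    rintro rfl
    omega
  obtain ⟨-, h2⟩ := hdown _ u rfl huy'
  refine ⟨trivial, ReflTransGen.tail (ReflTransGen.mono ?_ _ _ h2) ⟨huy, trivial⟩⟩
  rintro a b ⟨hab, -⟩
  exact ⟨hab, trivial⟩

/-- Hamiltonian `(x,y)`-paths and heights. -/
theorem ham_iff_lh [Fintype V] {r : V → V → Prop} (hpm : PathMergeable r) {x y : V} :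
    (∃ p, IsPath r x y p ∧ ∀ v, v ∈ p) ↔ ∃ ρ : V → ℕ, LH r {x} {y} Set.univ ρ := by
  classical
  constructor
  · rintro ⟨p, hp, hall⟩
    obtain ⟨ρ, h1, h2⟩ := height_of_path hp
    refine ⟨ρ, ?_, ?_⟩
    · intro v _ hv
      obtain ⟨u, -, h3, h4⟩ := h1 v (hall v) hv
      exact ⟨u, trivial, h3, h4⟩
    · intro v _ hv
      obtain ⟨u, -, h3, h4⟩ := h2 v (hall v) hv
      exact ⟨u, trivial, h3, h4⟩
  · rintro ⟨ρ, h1, h2⟩
    obtain ⟨p, hp, hall⟩ := path_of_height hpm (S := Finset.univ) (Finset.mem_univ x)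
      (Finset.mem_univ y) ρ
      (fun v _ hv => by
        obtain ⟨u, -, h3, h4⟩ := h1 v trivial hv
        exact ⟨u, Finset.mem_univ u, h3, h4⟩)
      (fun v _ hv => by
        obtain ⟨u, -, h3, h4⟩ := h2 v trivial hv
        exact ⟨u, Finset.mem_univ u, h3, h4⟩)
    exact ⟨p, hp, fun v => (hall v).2 (Finset.mem_univ v)⟩

/-- The deep vertices suffice. -/
theorem ham_of_deep [Fintype V] {r : V → V → Prop} (hpm : PathMergeable r) {x y : V}
    (hxy : x ≠ y) (hL : Linked r x y) {S : Set V} {μ : V → ℕ} (hG : Good r x y S μ)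
    (hdeep : ∀ v, Deep r x y v → v ∈ S) : ∃ p, IsPath r x y p ∧ ∀ v, v ∈ p := by
  obtain ⟨ν, hν⟩ := extend_all hL _ S μ rfl hG hdeep
  exact (ham_iff_lh hpm).2 (lh_of_good hxy hL hν)

/-- The component of `v₀`. -/
def comp (r : V → V → Prop) (x y v₀ : V) : Set V := {v | SC r x y v₀ v}

/-- The deep vertices in the component of `v₀`. -/
def deepIn (r : V → V → Prop) (x y v₀ : V) : Set V := {v | SC r x y v₀ v ∧ Deep r x y v}

/-- `X` with the ranks `ρ` is a skeleton of the component of `v₀`. -/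
def Skeleton (r : V → V → Prop) (x y v₀ : V) (X : Finset V) (ρ : V → ℕ) : Prop :=
  (∀ v ∈ X, v ∈ comp r x y v₀) ∧ (∀ v ∈ deepIn r x y v₀, v ∈ X) ∧
  (∀ v ∈ X, ¬ Deep r x y v → ¬ Entry r x y v → ∃ u ∈ X, r u v ∧ ρ u < ρ v) ∧
  (∀ v ∈ X, ¬ Deep r x y v → ¬ Exit r x y v → ∃ u ∈ X, r v u ∧ ρ v < ρ u) ∧
  (∀ v ∈ X, Deep r x y v →
    (∃ u ∈ X, ρ u < ρ v ∧ Through r {z | z ∈ comp r x y v₀ ∧ ¬ Entry r x y z ∧ z ∉ X} u v) ∧
    ∃ u ∈ X, ρ v < ρ u ∧ Through r {z | z ∈ comp r x y v₀ ∧ ¬ Exit r x y z ∧ z ∉ X} v u)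

/-- The arcs inside the components. -/
def inner (r : V → V → Prop) (x y : V) : V → V → Prop := fun a b => r a b ∧ SC r x y a b

theorem through_inner {r : V → V → Prop} {x y v₀ : V} {U : Set V}
    (hU : ∀ v ∈ U, SC r x y v₀ v) {u w : V} (hu : SC r x y v₀ u) (hw : SC r x y v₀ w) :
    Through r U u w ↔ Through (inner r x y) U u w := by
  constructor
  · rintro ⟨t, ht, htw⟩
    have htS : SC r x y v₀ t := by
      rcases rtg_mem ht with rfl | h
      · exact hu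
      · exact hU _ h
    refine ⟨t, ?_, htw, htS.symm.trans hw⟩
    clear htw htS
    induction ht with
    | refl => exact .refl
    | @tail a b hua hab ih =>
      have haS : SC r x y v₀ a := by
        rcases rtg_mem hua with rfl | h
        · exact hu
        · exact hU _ h
      exact ih.tail ⟨⟨hab.1, haS.symm.trans (hU _ hab.2)⟩, hab.2⟩
  · rintro ⟨t, ht, htw⟩
    refine ⟨t, ReflTransGen.mono ?_ _ _ ht, htw.1⟩
    rintro a b ⟨hab, hb⟩
    exact ⟨hab.1, hb⟩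

theorem skeleton_of_good [Fintype V] {r : V → V → Prop} {x y v₀ : V} {μ : V → ℕ}
    (hG : Good r x y {v | v ≠ x ∧ v ≠ y} μ) :
    ∃ (X : Finset V) (ρ : V → ℕ), Skeleton r x y v₀ X ρ ∧
      X.card ≤ 5 * (deepIn r x y v₀).ncard := by
  classical
  let K : Set V := comp r x y v₀
  let A : Set V := {v | v ∈ K ∧ Entry r x y v}
  let B : Set V := {v | v ∈ K ∧ Exit r x y v}
  let W : Finset V := Finset.univ.filter fun v => v ∈ deepIn r x y v₀
  have hW : ∀ v, v ∈ W ↔ v ∈ deepIn r x y v₀ := by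
    intro v
    simp only [W, Finset.mem_filter, Finset.mem_univ, true_and]
  have hLH : LH (inner r x y) A B K μ := by
    constructor
    · intro v hv hvA
      have hv' : SC r x y v₀ v := hv
      obtain ⟨u, -, h1, h2, h3⟩ := hG.low v hv'.right (fun h => hvA ⟨hv, h⟩)
      exact ⟨u, hv'.trans h2.symm, ⟨h1, h2⟩, h3⟩
    · intro v hv hvB
      have hv' : SC r x y v₀ v := hv
      obtain ⟨u, -, h1, h2, h3⟩ := hG.high v hv'.right (fun h => hvB ⟨hv, h⟩)
      exact ⟨u, hv'.trans h2, ⟨h1, h2⟩, h3⟩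
  obtain ⟨X, hc, hWX, hXK, hlow, hhigh, hbelow, habove⟩ := skeleton_of_height
    (R := inner r x y) (A := A) (B := B) (K := K) (S := K) (W := W) (μ := μ)
    (by
      intro v hv
      by_cases h1 : Entry r x y v
      · exact Or.inl ⟨hv, h1⟩
      · by_cases h2 : Exit r x y v
        · exact Or.inr (Or.inl ⟨hv, h2⟩)
        · have hv' : SC r x y v₀ v := hv
          exact Or.inr (Or.inr ((hW v).2 ⟨hv, hv'.right.1, hv'.right.2, h1, h2⟩)))
    (fun v hv => hv) (fun w hw => ((hW w).1 hw).1)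
    (fun w hw h => ((hW w).1 hw).2.2.2.1 h.2) (fun w hw h => ((hW w).1 hw).2.2.2.2 h.2) hLH
  have hcW : W.card = (deepIn r x y v₀).ncard := by
    rw [← Set.ncard_coe_finset]
    congr 1
    ext v
    simp only [Finset.mem_coe]
    exact hW v
  refine ⟨X, μ, ⟨hXK, fun v hv => hWX v ((hW v).2 hv), ?_, ?_, ?_⟩, hcW ▸ hc⟩
  · intro v hv hvD hvE
    obtain ⟨u, hu, h1, h2⟩ := hlow v hv (fun h => hvE h.2) (fun h => hvD ((hW v).1 h).2)
    exact ⟨u, hu, h1.1, h2⟩
  · intro v hv hvD hvE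
    obtain ⟨u, hu, h1, h2⟩ := hhigh v hv (fun h => hvE h.2) (fun h => hvD ((hW v).1 h).2)
    exact ⟨u, hu, h1.1, h2⟩
  · intro v hv hvD
    have hvW : v ∈ W := (hW v).2 ⟨hXK v hv, hvD⟩
    constructor
    · obtain ⟨u, hu, h1, h2⟩ := hbelow v hvW
      refine ⟨u, hu, h1, ?_⟩
      rw [through_inner (v₀ := v₀) (fun z hz => hz.1) (hXK u hu) (hXK v hv)]
      obtain ⟨t, ht, htv⟩ := h2
      refine ⟨t, ReflTransGen.mono ?_ _ _ ht, htv⟩
      rintro a b ⟨hab, hb1, hb2, hb3⟩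
      exact ⟨hab, hb1, fun h => hb2 ⟨hb1, h⟩, hb3⟩
    · obtain ⟨u, hu, h1, h2⟩ := habove v hvW
      refine ⟨u, hu, h1, ?_⟩
      rw [through_inner (v₀ := v₀) (fun z hz => hz.1) (hXK v hv) (hXK u hu)]
      obtain ⟨t, ht, htv⟩ := h2
      refine ⟨t, ReflTransGen.mono ?_ _ _ ht, htv⟩
      rintro a b ⟨hab, hb1, hb2, hb3⟩
      exact ⟨hab, hb1, fun h => hb2 ⟨hb1, h⟩, hb3⟩

theorem height_of_skel [Fintype V] {r : V → V → Prop} {x y v₀ : V} {X : Finset V} {ρ : V → ℕ}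
    (h : Skeleton r x y v₀ X ρ) :
    ∃ (S : Set V) (ν : V → ℕ), (∀ v ∈ deepIn r x y v₀, v ∈ S) ∧
      (∀ v ∈ S, v ∈ comp r x y v₀) ∧
      (∀ v ∈ S, ¬ Entry r x y v → ∃ u ∈ S, r u v ∧ SC r x y u v ∧ ν u < ν v) ∧
      (∀ v ∈ S, ¬ Exit r x y v → ∃ u ∈ S, r v u ∧ SC r x y v u ∧ ν v < ν u) := by
  classical
  obtain ⟨h1, h2, h3, h4, h5⟩ := h
  obtain ⟨S, ν, hXS, hSK, hLH⟩ := height_of_skeleton (R := inner r x y)
    (A := {v | v ∈ comp r x y v₀ ∧ Entry r x y v}) (B := {v | v ∈ comp r x y v₀ ∧ Exit r x y v})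
    (K := comp r x y v₀) (W := {v | Deep r x y v}) (X := X) (ρ := ρ)
    (by
      intro v hv hvX
      by_cases e1 : Entry r x y v
      · exact Or.inl ⟨hv, e1⟩
      · by_cases e2 : Exit r x y v
        · exact Or.inr ⟨hv, e2⟩
        · have hv' : SC r x y v₀ v := hv
          exact absurd (h2 v ⟨hv, hv'.right.1, hv'.right.2, e1, e2⟩) hvX)
    (by
      intro v hv hvA hvW
      obtain ⟨u, hu, k1, k2⟩ := h3 v hv hvW (fun h => hvA ⟨h1 v hv, h⟩)
      have e1 : SC r x y v₀ u := h1 u hu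
      have e2 : SC r x y v₀ v := h1 v hv
      exact ⟨u, hu, ⟨k1, e1.symm.trans e2⟩, k2⟩)
    (by
      intro v hv hvA hvW
      obtain ⟨u, hu, k1, k2⟩ := h4 v hv hvW (fun h => hvA ⟨h1 v hv, h⟩)
      have e1 : SC r x y v₀ u := h1 u hu
      have e2 : SC r x y v₀ v := h1 v hv
      exact ⟨u, hu, ⟨k1, e2.symm.trans e1⟩, k2⟩)
    (by
      intro w hw hwW
      obtain ⟨⟨u, hu, k1, k2⟩, -⟩ := h5 w hw hwW
      refine ⟨u, hu, k1, ?_⟩
      rw [through_inner (v₀ := v₀) (fun z hz => hz.1) (h1 u hu) (h1 w hw)] at k2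
      obtain ⟨t, ht, htv⟩ := k2
      refine ⟨t, ReflTransGen.mono ?_ _ _ ht, htv⟩
      rintro a b ⟨hab, hb1, hb2, hb3⟩
      exact ⟨hab, hb1, fun h => hb2 h.2, hb3⟩)
    (by
      intro w hw hwW
      obtain ⟨-, ⟨u, hu, k1, k2⟩⟩ := h5 w hw hwW
      refine ⟨u, hu, k1, ?_⟩
      rw [through_inner (v₀ := v₀) (fun z hz => hz.1) (h1 w hw) (h1 u hu)] at k2
      obtain ⟨t, ht, htv⟩ := k2
      refine ⟨t, ReflTransGen.mono ?_ _ _ ht, htv⟩
      rintro a b ⟨hab, hb1, hb2, hb3⟩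
      exact ⟨hab, hb1, fun h => hb2 h.2, hb3⟩)
  have hSK' : ∀ v ∈ S, v ∈ comp r x y v₀ := by
    intro v hv
    rcases hSK v hv with h | h
    · exact h1 v h
    · exact h
  refine ⟨S, ν, fun v hv => hXS v (h2 v hv), hSK', ?_, ?_⟩
  · intro v hv hE
    obtain ⟨u, hu, k1, k2⟩ := hLH.1 v hv (fun h => hE h.2)
    exact ⟨u, hu, k1.1, k1.2, k2⟩
  · intro v hv hE
    obtain ⟨u, hu, k1, k2⟩ := hLH.2 v hv (fun h => hE h.2)
    exact ⟨u, hu, k1.1, k1.2, k2⟩

theorem good_of_skel [Fintype V] {r : V → V → Prop} {x y : V}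
    (h : ∀ v₀, v₀ ≠ x → v₀ ≠ y → ∃ (X : Finset V) (ρ : V → ℕ), Skeleton r x y v₀ X ρ) :
    ∃ (S : Set V) (μ : V → ℕ), Good r x y S μ ∧ ∀ v, Deep r x y v → v ∈ S := by
  classical
  have h' : ∀ v₀ : V, ∃ (S : Set V) (ν : V → ℕ), v₀ ≠ x → v₀ ≠ y →
      (∀ v ∈ deepIn r x y v₀, v ∈ S) ∧ (∀ v ∈ S, v ∈ comp r x y v₀) ∧
      (∀ v ∈ S, ¬ Entry r x y v → ∃ u ∈ S, r u v ∧ SC r x y u v ∧ ν u < ν v) ∧
      (∀ v ∈ S, ¬ Exit r x y v → ∃ u ∈ S, r v u ∧ SC r x y v u ∧ ν v < ν u) := by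
    intro v₀
    by_cases hx : v₀ = x
    · exact ⟨∅, fun _ => 0, fun h => absurd hx h⟩
    · by_cases hy : v₀ = y
      · exact ⟨∅, fun _ => 0, fun _ h => absurd hy h⟩
      · obtain ⟨X, ρ, hX⟩ := h v₀ hx hy
        obtain ⟨S, ν, hS⟩ := height_of_skel hX
        exact ⟨S, ν, fun _ _ => hS⟩
  choose T ν hT using h'
  have : Nonempty V := ⟨x⟩
  let rep : V → V := fun v => Classical.epsilon fun u => SC r x y v u
  have hrep : ∀ v, v ≠ x → v ≠ y → SC r x y v (rep v) := fun v h1 h2 =>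
    Classical.epsilon_spec (p := fun u => SC r x y v u) ⟨v, SC.refl h1 h2⟩
  have hrepeq : ∀ u v, SC r x y u v → rep u = rep v := by
    intro u v huv
    have : (fun z => SC r x y u z) = (fun z => SC r x y v z) := by
      funext z
      exact propext ⟨fun h => huv.symm.trans h, fun h => huv.trans h⟩
    simp only [rep]
    rw [this]
  refine ⟨{v | v ≠ x ∧ v ≠ y ∧ v ∈ T (rep v)}, fun v => ν (rep v) v, ⟨?_, ?_, ?_⟩, ?_⟩
  · rintro v ⟨h1, h2, -⟩
    exact ⟨h1, h2⟩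
  · rintro v ⟨h1, h2, h3⟩ hE
    have hr := hrep v h1 h2
    obtain ⟨-, -, k3, -⟩ := hT (rep v) hr.right.1 hr.right.2
    obtain ⟨u, hu, e1, e2, e3⟩ := k3 v h3 hE
    have e4 := hrepeq u v e2
    refine ⟨u, ⟨e2.left.1, e2.left.2, by rw [e4]; exact hu⟩, e1, e2, ?_⟩
    rw [e4]; exact e3
  · rintro v ⟨h1, h2, h3⟩ hE
    have hr := hrep v h1 h2
    obtain ⟨-, -, -, k4⟩ := hT (rep v) hr.right.1 hr.right.2
    obtain ⟨u, hu, e1, e2, e3⟩ := k4 v h3 hE
    have e4 := hrepeq v u e2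
    refine ⟨u, ⟨e2.right.1, e2.right.2, by rw [← e4]; exact hu⟩, e1, e2, ?_⟩
    rw [← e4]; exact e3
  · intro v hv
    have hr := hrep v hv.1 hv.2.1
    obtain ⟨k1, -, -, -⟩ := hT (rep v) hr.right.1 hr.right.2
    exact ⟨hv.1, hv.2.1, k1 v ⟨hr.symm, hv⟩⟩

/-- Connectivity around the deep vertices gives skeletons. -/
theorem skel_of_conn [Fintype V] {r : V → V → Prop} {x y : V} (hxy : x ≠ y) (k : ℕ)
    (hk : ∀ v₀, (deepIn r x y v₀).ncard ≤ k)
    (hc : ∀ w, Deep r x y w → ∀ Z : Finset V, Z.card < 3 * k → w ∉ Z → x ∉ Z → y ∉ Z →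
      Reach r {v | v ≠ y ∧ v ∉ Z} x w ∧ Reach r {v | v ≠ x ∧ v ∉ Z} w y) (v₀ : V) :
    ∃ (X : Finset V) (ρ : V → ℕ), Skeleton r x y v₀ X ρ := by
  classical
  let K : Set V := comp r x y v₀
  let W : Finset V := Finset.univ.filter fun v => v ∈ deepIn r x y v₀
  have hW : ∀ v, v ∈ W ↔ v ∈ deepIn r x y v₀ := by
    intro v
    simp only [W, Finset.mem_filter, Finset.mem_univ, true_and]
  have hcW : W.card ≤ k := by
    have : W.card = (deepIn r x y v₀).ncard := by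
      rw [← Set.ncard_coe_finset]
      congr 1
      ext v
      simp only [Finset.mem_coe]
      exact hW v
    rw [this]; exact hk v₀
  obtain ⟨X, ρ, hWX, hXK, hlow, hhigh, hbelow, habove⟩ := skeleton_of_conn
    (R := fun a b => inner r x y a b ∧ a ∈ K ∧ b ∈ K)
    (A := {v | v ∈ K ∧ Entry r x y v}) (B := {v | v ∈ K ∧ Exit r x y v}) (K := K) (W := W)
    (fun a b h => h.2)
    (by
      intro v hv
      by_cases e1 : Entry r x y v
      · exact Or.inl ⟨hv, e1⟩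
      · by_cases e2 : Exit r x y v
        · exact Or.inr (Or.inl ⟨hv, e2⟩)
        · have hv' : SC r x y v₀ v := hv
          exact Or.inr (Or.inr ((hW v).2 ⟨hv, hv'.right.1, hv'.right.2, e1, e2⟩)))
    (fun v hv => hv.1) (fun w hw => ((hW w).1 hw).1) (fun v hv => hv.1)
    (fun w hw h => ((hW w).1 hw).2.2.2.1 h.2) (fun w hw h => ((hW w).1 hw).2.2.2.2 h.2)
    (by
      intro w hw Z hwZ hZ
      have hwd := (hW w).1 hw
      have hwK : SC r x y v₀ w := hwd.1
      obtain ⟨⟨-, hwalk⟩, -⟩ := hc w hwd.2 ((Z.erase x).erase y)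
        (lt_of_le_of_lt ((Finset.card_erase_le).trans Finset.card_erase_le) (by omega))
        (by simp [hwZ]) (by simp) (by simp)
      have aux : ∀ u, ReflTransGen (fun a b => r a b ∧ b ∈ {v | v ≠ y ∧ v ∉ (Z.erase x).erase y})
          u w → u ≠ y → (SC r x y v₀ u ∧ ReflTransGen
            (fun a b => (inner r x y a b ∧ a ∈ K ∧ b ∈ K) ∧ b ∉ Z) u w) ∨
          ∃ a ∈ {v | v ∈ K ∧ Entry r x y v}, a ∉ Z ∧ ReflTransGen
            (fun a b => (inner r x y a b ∧ a ∈ K ∧ b ∈ K) ∧ b ∉ Z) a w := by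
        intro u hu
        induction hu using ReflTransGen.head_induction_on with
        | refl => exact fun _ => Or.inl ⟨hwK, .refl⟩
        | @head u u' huu' _ ih =>
          intro huy
          obtain ⟨hR, hu'y, hu'Z⟩ := huu'
          rcases ih hu'y with ⟨h1, h2⟩ | h1
          · have hu'Z' : u' ∉ Z := fun h => hu'Z (Finset.mem_erase.2 ⟨h1.right.2,
              Finset.mem_erase.2 ⟨h1.right.1, h⟩⟩)
            by_cases hsc : SC r x y u u'
            · left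
              have h3 : SC r x y v₀ u := h1.trans hsc.symm
              exact ⟨h3, ReflTransGen.head ⟨⟨⟨hR, hsc⟩, h3, h1⟩, hu'Z'⟩ h2⟩
            · right
              exact ⟨u', ⟨h1, h1.right.1, h1.right.2, u, hR, huy, hsc⟩, hu'Z', h2⟩
          · exact Or.inr h1
      rcases aux x hwalk hxy with ⟨h, -⟩ | h
      · exact absurd rfl h.right.1
      · exact h)
    (by
      intro w hw Z hwZ hZ
      have hwd := (hW w).1 hw
      have hwK : SC r x y v₀ w := hwd.1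
      obtain ⟨-, ⟨-, hwalk⟩⟩ := hc w hwd.2 ((Z.erase x).erase y)
        (lt_of_le_of_lt ((Finset.card_erase_le).trans Finset.card_erase_le) (by omega))
        (by simp [hwZ]) (by simp) (by simp)
      have aux : ∀ u, ReflTransGen (fun a b => r a b ∧ b ∈ {v | v ≠ x ∧ v ∉ (Z.erase x).erase y})
          w u → (SC r x y v₀ u ∧ u ∉ Z ∧ ReflTransGen
            (fun a b => (inner r x y a b ∧ a ∈ K ∧ b ∈ K) ∧ a ∉ Z) w u) ∨
          ∃ b ∈ {v | v ∈ K ∧ Exit r x y v}, b ∉ Z ∧ ReflTransGen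
            (fun a b => (inner r x y a b ∧ a ∈ K ∧ b ∈ K) ∧ a ∉ Z) w b := by
        intro u hu
        induction hu with
        | refl => exact Or.inl ⟨hwK, hwZ, .refl⟩
        | @tail u u' _ huu' ih =>
          obtain ⟨hR, hu'x, hu'Z⟩ := huu'
          rcases ih with ⟨h1, h2, h3⟩ | h1
          · by_cases hsc : SC r x y u u'
            · left
              have h4 : SC r x y v₀ u' := h1.trans hsc
              refine ⟨h4, ?_, h3.tail ⟨⟨⟨hR, hsc⟩, h1, h4⟩, h2⟩⟩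
              exact fun h => hu'Z (Finset.mem_erase.2 ⟨h4.right.2,
                Finset.mem_erase.2 ⟨h4.right.1, h⟩⟩)
            · right
              exact ⟨u, ⟨h1, h1.right.1, h1.right.2, u', hR, hu'x, hsc⟩, h2, h3⟩
          · exact Or.inr h1
      rcases aux y hwalk with ⟨h, -⟩ | h
      · exact absurd rfl h.right.2
      · exact h)
  refine ⟨X, ρ, hXK, fun v hv => hWX v ((hW v).2 hv), ?_, ?_, ?_⟩
  · intro v hv hvD hvE
    obtain ⟨u, hu, h1, h2⟩ := hlow v hv (fun h => hvE h.2) (fun h => hvD ((hW v).1 h).2)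
    exact ⟨u, hu, h1.1.1, h2⟩
  · intro v hv hvD hvE
    obtain ⟨u, hu, h1, h2⟩ := hhigh v hv (fun h => hvE h.2) (fun h => hvD ((hW v).1 h).2)
    exact ⟨u, hu, h1.1.1, h2⟩
  · intro v hv hvD
    have hvW : v ∈ W := (hW v).2 ⟨hXK v hv, hvD⟩
    constructor
    · obtain ⟨u, hu, h1, t, ht, htv⟩ := hbelow v hvW
      refine ⟨u, hu, h1, t, ReflTransGen.mono ?_ _ _ ht, htv.1.1⟩
      rintro a b ⟨hab, hb1, hb2, hb3⟩
      exact ⟨hab.1.1, hb1, fun h => hb2 ⟨hb1, h⟩, hb3⟩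
    · obtain ⟨u, hu, h1, t, ht, htv⟩ := habove v hvW
      refine ⟨u, hu, h1, t, ReflTransGen.mono ?_ _ _ ht, htv.1.1⟩
      rintro a b ⟨hab, hb1, hb2, hb3⟩
      exact ⟨hab.1.1, hb1, fun h => hb2 ⟨hb1, h⟩, hb3⟩

/-- Deep vertices between entries and exits. -/
theorem good_of_between {r : V → V → Prop} {x y : V} (A B : Set V)
    (hA : ∀ v ∈ A, Entry r x y v) (hB : ∀ v ∈ B, Exit r x y v) (hAB : ∀ v ∈ A, v ∉ B)
    (hd : ∀ w, Deep r x y w → (∃ a ∈ A, r a w) ∧ ∃ b ∈ B, r w b) :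
    ∃ (S : Set V) (μ : V → ℕ), Good r x y S μ ∧ ∀ v, Deep r x y v → v ∈ S := by
  classical
  let A' : Set V := {a | a ∈ A ∧ ∃ w, Deep r x y w ∧ r a w}
  let B' : Set V := {b | b ∈ B ∧ ∃ w, Deep r x y w ∧ r w b}
  let μ : V → ℕ := fun v => if v ∈ A' then 0 else if v ∈ B' then 2 else 1
  have hμA : ∀ v ∈ A', μ v = 0 := fun v hv => if_pos hv
  have hμB : ∀ v ∈ B', μ v = 2 := by
    intro v hv
    have : v ∉ A' := fun h => hAB v h.1 hv.1
    simp only [μ]; rw [if_neg this, if_pos hv]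
  have hμD : ∀ v, Deep r x y v → μ v = 1 := by
    intro v hv
    have h1 : v ∉ A' := fun h => hv.2.2.1 (hA v h.1)
    have h2 : v ∉ B' := fun h => hv.2.2.2 (hB v h.1)
    simp only [μ]; rw [if_neg h1, if_neg h2]
  have scA : ∀ a w, a ∈ A → Deep r x y w → r a w → SC r x y a w := by
    intro a w ha hw haw
    by_contra hcon
    exact hw.2.2.1 ⟨hw.1, hw.2.1, a, haw, (hA a ha).2.1, hcon⟩
  have scB : ∀ b w, b ∈ B → Deep r x y w → r w b → SC r x y w b := by
    intro b w hb hw hwb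
    by_contra hcon
    exact hw.2.2.2 ⟨hw.1, hw.2.1, b, hwb, (hB b hb).1, hcon⟩
  refine ⟨{v | v ∈ A' ∨ v ∈ B' ∨ Deep r x y v}, μ, ⟨?_, ?_, ?_⟩, fun v hv => Or.inr (Or.inr hv)⟩
  · rintro v (hv | hv | hv)
    · exact ⟨(hA v hv.1).1, (hA v hv.1).2.1⟩
    · exact ⟨(hB v hv.1).1, (hB v hv.1).2.1⟩
    · exact ⟨hv.1, hv.2.1⟩
  · rintro v (hv | hv | hv) hE
    · exact absurd (hA v hv.1) hE
    · obtain ⟨hvB, w, hw, hwv⟩ := id hv
      refine ⟨w, Or.inr (Or.inr hw), hwv, scB v w hvB hw hwv, ?_⟩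
      rw [hμD w hw, hμB v hv]; omega
    · obtain ⟨⟨a, ha, haw⟩, -⟩ := hd v hv
      have haA : a ∈ A' := ⟨ha, v, hv, haw⟩
      refine ⟨a, Or.inl haA, haw, scA a v ha hv haw, ?_⟩
      rw [hμA a haA, hμD v hv]; omega
  · rintro v (hv | hv | hv) hE
    · obtain ⟨hvA, w, hw, hvw⟩ := id hv
      refine ⟨w, Or.inr (Or.inr hw), hvw, scA v w hvA hw hvw, ?_⟩
      rw [hμD w hw, hμA v hv]; omega
    · exact absurd (hB v hv.1) hE
    · obtain ⟨-, ⟨b, hb, hwb⟩⟩ := hd v hv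
      have hbB : b ∈ B' := ⟨hb, v, hv, hwb⟩
      refine ⟨b, Or.inr (Or.inl hbB), hwb, scB b v hb hv hwb, ?_⟩
      rw [hμD v hv, hμB b hbB]; omega

end PM94
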