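import Mathlib

/-!
# Path-mergeable digraphs: merging an out-branching

Definitions of directed paths and path-mergeable digraphs, and the basic merging step for
out-branchings.
-/

namespace PM94

variable {V : Type*}

/-- `p` is the vertex list of a directed path from `x` to `y` in the digraph with arc relation
`r`: it starts in `x`, ends in `y`, consecutive vertices are joined by arcs and no vertex is
repeated. -/
def IsPath (r : V → V → Prop) (x y : V) (p : List V) : Prop :=
  p.head? = some x ∧ p.getLast? = some y ∧ p.IsChain r ∧ p.Nodup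

/-- A digraph is path-mergeable if for all distinct `x`, `y` and all internally disjoint
`(x,y)`-paths `p`, `q` there is an `(x,y)`-path whose vertex set is the union of the vertex sets
of `p` and `q`. -/
def PathMergeable (r : V → V → Prop) : Prop :=
  ∀ x y : V, x ≠ y → ∀ p q : List V, IsPath r x y p → IsPath r x y q →
    (∀ v, v ∈ p → v ∈ q → v = x ∨ v = y) →
      ∃ s : List V, IsPath r x y s ∧ ∀ v, v ∈ s ↔ v ∈ p ∨ v ∈ q

/-- `b` is a child of `a` (in the out-branching on `S` with root `x` and parent map `p`). -/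
def Kid (x : V) (S : Set V) (p : V → V) (a b : V) : Prop := b ∈ S ∧ b ≠ x ∧ p b = a

/-- An out-branching of `r` on `S` with root `x`, parent map `p` and rank function `d`. -/
structure Tree (r : V → V → Prop) (x : V) (S : Set V) (p : V → V) (d : V → ℕ) : Prop where
  root : x ∈ S
  par : ∀ v ∈ S, v ≠ x → p v ∈ S ∧ r (p v) v ∧ d (p v) < d v

/-- There is an out-branching on `S` with root `x` all of whose leaves lie in `Λ`. -/
def OutTree (r : V → V → Prop) (x : V) (S : Set V) (Λ : Set V) : Prop :=
  ∃ p d, Tree r x S p d ∧ ∀ v ∈ S, v ∉ Λ → ∃ u, Kid x S p v u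

theorem Kid.rel {r : V → V → Prop} {x : V} {S : Set V} {p : V → V} {d : V → ℕ}
    (T : Tree r x S p d) {a b : V} (h : Kid x S p a b) : r a b ∧ d a < d b ∧ a ∈ S ∧ b ∈ S := by
  obtain ⟨hb, hbx, rfl⟩ := h
  obtain ⟨h1, h2, h3⟩ := T.par b hb hbx
  exact ⟨h2, h3, h1, hb⟩

theorem chain_rank {r : V → V → Prop} {x : V} {S : Set V} {p : V → V} {d : V → ℕ}
    (T : Tree r x S p d) {s : V} {α : List V} (h : (s :: α).IsChain (Kid x S p)) :
    ∀ w ∈ α, d s < d w ∧ w ∈ S ∧ w ≠ x ∧ p w ∈ s :: α := by
  induction α generalizing s with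
  | nil => simp
  | cons a α ih =>
    rw [List.isChain_cons_cons] at h
    obtain ⟨hk, hc⟩ := h
    obtain ⟨-, hd, -, haS⟩ := hk.rel T
    intro w hw
    rcases List.mem_cons.1 hw with rfl | hw
    · exact ⟨hd, hk.1, hk.2.1, by rw [hk.2.2]; simp⟩
    · obtain ⟨h1, h2, h3, h4⟩ := ih hc w hw
      exact ⟨hd.trans h1, h2, h3, List.mem_cons_of_mem _ h4⟩

theorem chain_nodup {r : V → V → Prop} {x : V} {S : Set V} {p : V → V} {d : V → ℕ}
    (T : Tree r x S p d) {s : V} {α : List V} (h : (s :: α).IsChain (Kid x S p)) :
    (s :: α).Nodup := by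
  induction α generalizing s with
  | nil => simp
  | cons a α ih =>
    have h0 := h
    rw [List.isChain_cons_cons] at h
    obtain ⟨hk, hc⟩ := h
    rw [List.nodup_cons]
    refine ⟨fun hs => ?_, ih hc⟩
    exact lt_irrefl _ (chain_rank T h0 s hs).1

theorem chain_rel {r : V → V → Prop} {x : V} {S : Set V} {p : V → V} {d : V → ℕ}
    (T : Tree r x S p d) {α : List V} (h : α.IsChain (Kid x S p)) :
    α.IsChain r := h.imp (fun _ _ hk => (hk.rel T).1)

theorem climb {r : V → V → Prop} {x : V} {S : Set V} {p : V → V} {d : V → ℕ}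
    (T : Tree r x S p d) (U : Set V) (hxU : x ∈ U) :
    ∀ n v, d v = n → v ∈ S → ∃ s α, s ∈ U ∧ s ∈ S ∧ (s :: α).IsChain (Kid x S p) ∧
      (s :: α).getLast? = some v ∧ ∀ w ∈ α, w ∉ U := by
  intro n
  induction n using Nat.strong_induction_on with
  | _ n ih =>
    intro v hdv hv
    by_cases hvU : v ∈ U
    · exact ⟨v, [], hvU, hv, by simp, by simp, by simp⟩
    · have hvx : v ≠ x := fun h => hvU (h ▸ hxU)
      obtain ⟨h1, h2, h3⟩ := T.par v hv hvx
      obtain ⟨s, α, hs, hsS, hc, hl, hα⟩ := ih (d (p v)) (hdv ▸ h3) (p v) rfl h1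
      refine ⟨s, α ++ [v], hs, hsS, ?_, ?_, ?_⟩
      · rw [← List.cons_append, List.isChain_append]
        refine ⟨hc, by simp, ?_⟩
        intro a ha b hb
        rw [hl] at ha
        simp only [Option.mem_def, Option.some.injEq, List.head?_cons] at ha hb
        subst ha; subst hb
        exact ⟨hv, hvx, rfl⟩
      · rw [← List.cons_append, List.getLast?_append]
        simp
      · intro w hw
        rcases List.mem_append.1 hw with hw | hw
        · exact hα w hw
        · simp only [List.mem_singleton] at hw
          subst hw; exact hvU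

/-- All vertices on a downward chain ending in `q` reach `q`. -/
theorem chain_reach {k : V → V → Prop} {s q : V} {α : List V} (h : (s :: α).IsChain k)
    (hl : (s :: α).getLast? = some q) : ∀ w ∈ s :: α, Relation.ReflTransGen k w q := by
  induction α generalizing s with
  | nil =>
    intro w hw
    simp only [List.mem_singleton] at hw
    simp only [List.getLast?_singleton, Option.some.injEq] at hl
    subst hw; subst hl; exact .refl
  | cons a α ih =>
    rw [List.isChain_cons_cons] at h
    have hl' : (a :: α).getLast? = some q := by simpa using hl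
    intro w hw
    rcases List.mem_cons.1 hw with rfl | hw
    · exact Relation.ReflTransGen.head h.1 (ih h.2 hl' a (by simp))
    · exact ih h.2 hl' w hw

theorem reach_chain {k : V → V → Prop} {s q : V} (h : Relation.ReflTransGen k s q) :
    ∃ α : List V, (s :: α).IsChain k ∧ (s :: α).getLast? = some q := by
  obtain ⟨l, hl, hq⟩ := List.exists_isChain_cons_of_relationReflTransGen h
  exact ⟨l, hl, by rw [List.getLast?_eq_some_getLast (List.cons_ne_nil _ _), hq]⟩

/-- The merging step: in an out-branching on `S`, two vertices `q₁`, `q₂` that dominate a vertex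
`z` outside `S` can be replaced in the set of allowed leaves by a single vertex dominating `z`. -/
theorem merge_two {r : V → V → Prop} (hpm : PathMergeable r) {x : V} {S Λ : Set V} {q₁ q₂ z : V}
    (hq₁ : q₁ ∈ S) (hq₂ : q₂ ∈ S) (h₁ : r q₁ z) (h₂ : r q₂ z) (hz : z ∉ S)
    (h : OutTree r x S (Λ ∪ {q₁, q₂})) :
    ∃ t ∈ S, r t z ∧ OutTree r x S (Λ ∪ {t}) := by
  classical
  obtain ⟨p, d, T, hk⟩ := h
  by_cases hne : q₁ = q₂
  · subst hne
    exact ⟨q₁, hq₁, h₁, p, d, T, by simpa using hk⟩
  -- ancestors of `q₂`
  let U : Set V := {u | Relation.ReflTransGen (Kid x S p) u q₂}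
  have hxU : x ∈ U := by
    obtain ⟨s, α, hs, hsS, hc, hl, hα⟩ := climb T {x} rfl (d q₂) q₂ rfl hq₂
    have : s = x := hs
    subst this
    exact chain_reach hc hl s (by simp)
  obtain ⟨s, α, hsU, hsS, hcα, hlα, hαU⟩ := climb T U hxU (d q₁) q₁ rfl hq₁
  obtain ⟨β, hcβ, hlβ⟩ := reach_chain (show Relation.ReflTransGen (Kid x S p) s q₂ from hsU)
  have hβU : ∀ w ∈ s :: β, w ∈ U := fun w hw => chain_reach hcβ hlβ w hw
  -- degenerate cases
  rcases Classical.em (α = []) with hα0 | hα0
  · subst hα0
    have hs1 : s = q₁ := by simpa using hlα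
    subst hs1
    have hβ0 : β ≠ [] := by
      rintro rfl
      exact hne (by simpa using hlβ)
    obtain ⟨b, β', rfl⟩ := List.exists_cons_of_ne_nil hβ0
    rw [List.isChain_cons_cons] at hcβ
    refine ⟨q₂, hq₂, h₂, p, d, T, ?_⟩
    intro v hv hvΛ
    by_cases hv1 : v = s
    · subst hv1; exact ⟨b, hcβ.1⟩
    · refine hk v hv ?_
      rintro (h | h | h)
      · exact hvΛ (Or.inl h)
      · exact hv1 h
      · exact hvΛ (Or.inr h)
  rcases Classical.em (β = []) with hβ0 | hβ0
  · subst hβ0
    have hs2 : s = q₂ := by simpa using hlβ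
    subst hs2
    obtain ⟨a, α', rfl⟩ := List.exists_cons_of_ne_nil hα0
    rw [List.isChain_cons_cons] at hcα
    refine ⟨q₁, hq₁, h₁, p, d, T, ?_⟩
    intro v hv hvΛ
    by_cases hv1 : v = s
    · subst hv1; exact ⟨a, hcα.1⟩
    · refine hk v hv ?_
      rintro (h | h | h)
      · exact hvΛ (Or.inl h)
      · exact hvΛ (Or.inr h)
      · exact hv1 h
  -- main case
  have hαS := chain_rank T hcα
  have hβS := chain_rank T hcβ
  have hsz : s ≠ z := fun h => hz (h ▸ hsS)
  have hzα : z ∉ s :: α := by
    intro h
    rcases List.mem_cons.1 h with h | h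
    · exact hsz h.symm
    · exact hz (hαS z h).2.1
  have hzβ : z ∉ s :: β := by
    intro h
    rcases List.mem_cons.1 h with h | h
    · exact hsz h.symm
    · exact hz (hβS z h).2.1
  have mkpath : ∀ {γ : List V} {q : V}, (s :: γ).IsChain (Kid x S p) →
      (s :: γ).getLast? = some q → r q z → z ∉ s :: γ → IsPath r s z ((s :: γ) ++ [z]) := by
    intro γ q hc hl hq hzγ
    refine ⟨by simp, by rw [List.getLast?_append]; simp, ?_, ?_⟩
    · rw [List.isChain_append]
      refine ⟨chain_rel T hc, by simp, ?_⟩
      intro a ha b hb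
      rw [hl] at ha
      simp only [Option.mem_def, Option.some.injEq, List.head?_cons] at ha hb
      subst ha; subst hb
      exact hq
    · rw [List.nodup_append]
      refine ⟨chain_nodup T hc, by simp, ?_⟩
      intro a ha b hb
      simp only [List.mem_singleton] at hb
      subst hb
      rintro rfl
      exact hzγ ha
  obtain ⟨t, ht, htm⟩ := hpm s z hsz _ _ (mkpath hcα hlα h₁ hzα) (mkpath hcβ hlβ h₂ hzβ) (by
    intro v hv hv'
    rcases List.mem_append.1 hv with hv | hv
    · rcases List.mem_append.1 hv' with hv' | hv'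
      · rcases List.mem_cons.1 hv with hv | hv
        · exact Or.inl hv
        · exact absurd (hβU v hv') (hαU v hv)
      · exact Or.inr (by simpa using hv')
    · exact Or.inr (by simpa using hv))
  -- write `t = s :: τ ++ [z]`
  obtain ⟨ht1, ht2, ht3, ht4⟩ := ht
  obtain ⟨t', rfl⟩ : ∃ t', t = s :: t' := by
    cases t with
    | nil => simp at ht1
    | cons a t' =>
      simp only [List.head?_cons, Option.some.injEq] at ht1
      exact ⟨t', by rw [ht1]⟩
  have ht'ne : t' ≠ [] := by
    rintro rfl
    apply hsz
    simpa using ht2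
  obtain ⟨τ, rfl⟩ : ∃ τ, t' = τ ++ [z] := by
    refine ⟨t'.dropLast, ?_⟩
    have hz' : t'.getLast ht'ne = z := by
      have : (s :: t').getLast? = some (t'.getLast ht'ne) := by
        rw [List.getLast?_eq_some_getLast (List.cons_ne_nil _ _), List.getLast_cons ht'ne]
      rw [this] at ht2
      exact Option.some.inj ht2
    rw [← hz', List.dropLast_append_getLast]
  set L : List V := s :: τ with hL
  have hLz : s :: (τ ++ [z]) = L ++ [z] := by simp [hL]
  rw [hLz] at ht3 ht4 htm
  have hLnd : L.Nodup := (List.nodup_append.1 ht4).1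
  have hzL : z ∉ L := by
    intro h
    exact (List.nodup_append.1 ht4).2.2 z h z (by simp) rfl
  have hLc : L.IsChain r := (List.isChain_append.1 ht3).1
  have hsτ : s ∉ τ := (List.nodup_cons.1 hLnd).1
  have hLmem : ∀ v, v ∈ L ↔ v ∈ s :: α ∨ v ∈ s :: β := by
    intro v
    have := htm v
    constructor
    · intro hv
      have hv' : v ∈ L ++ [z] := List.mem_append_left _ hv
      have hvz : v ≠ z := fun h => hzL (h ▸ hv)
      rcases this.1 hv' with h | h
      · rcases List.mem_append.1 h with h | h
        · exact Or.inl h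
        · exact absurd (by simpa using h) hvz
      · rcases List.mem_append.1 h with h | h
        · exact Or.inr h
        · exact absurd (by simpa using h) hvz
    · intro hv
      have hvz : v ≠ z := by
        rintro rfl
        rcases hv with h | h
        · exact hzα h
        · exact hzβ h
      have : v ∈ L ++ [z] := this.2 (by
        rcases hv with h | h
        · exact Or.inl (List.mem_append_left _ h)
        · exact Or.inr (List.mem_append_left _ h))
      rcases List.mem_append.1 this with h | h
      · exact h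
      · exact absurd (by simpa using h) hvz
  have hτ : ∀ w ∈ τ, d s < d w ∧ w ∈ S ∧ w ≠ x ∧ p w ∈ L := by
    intro w hw
    have hws : w ≠ s := fun h => hsτ (h ▸ hw)
    rcases (hLmem w).1 (List.mem_cons_of_mem _ hw) with h | h
    · have h' : w ∈ α := by
        rcases List.mem_cons.1 h with h | h
        · exact absurd h hws
        · exact h
      obtain ⟨a, b, c, e⟩ := hαS w h'
      exact ⟨a, b, c, (hLmem _).2 (Or.inl e)⟩
    · have h' : w ∈ β := by
        rcases List.mem_cons.1 h with h | h
        · exact absurd h hws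
        · exact h
      obtain ⟨a, b, c, e⟩ := hβS w h'
      exact ⟨a, b, c, (hLmem _).2 (Or.inr e)⟩
  have hτne : τ ≠ [] := by
    rintro rfl
    obtain ⟨a, α', rfl⟩ := List.exists_cons_of_ne_nil hα0
    have ha : a ∈ L := (hLmem a).2 (Or.inl (by simp))
    have : a = s := by simpa [hL] using ha
    have hnd := chain_nodup T hcα
    rw [this] at hnd
    simp at hnd
  have hLne : L ≠ [] := by simp [hL]
  have hLS : ∀ w ∈ L, w ∈ S := by
    intro w hw
    rcases List.mem_cons.1 hw with rfl | hw
    · exact hsS
    · exact (hτ w hw).2.1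
  let t₀ := L.getLast hLne
  have ht₀z : r t₀ z := by
    have := (List.isChain_append.1 ht3).2.2
    exact this t₀ (List.getLast?_eq_some_getLast hLne) z (by simp)
  let K := L.length + 1
  let p' : V → V := fun v => if v ∈ τ then L.getD (L.idxOf v - 1) x else p v
  let d' : V → ℕ := fun v => if v ∈ τ then K * d s + L.idxOf v else K * d v
  -- index facts
  have hidx : ∀ v ∈ τ, ∃ i, ∃ hi : i + 1 < L.length, L[i + 1] = v ∧ L.idxOf v = i + 1 ∧
      p' v = L[i] := by
    intro v hv
    have hvL : v ∈ L := List.mem_cons_of_mem _ hv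
    have hlt : L.idxOf v < L.length := List.idxOf_lt_length_iff.2 hvL
    have h0 : L.idxOf v ≠ 0 := by
      intro h0
      have : L[L.idxOf v] = v := List.getElem_idxOf hlt
      simp only [h0] at this
      have h2 : L[0] = s := by simp [hL]
      rw [h2] at this
      exact hsτ (this ▸ hv)
    obtain ⟨i, hi⟩ := Nat.exists_eq_succ_of_ne_zero h0
    have hi' : i + 1 < L.length := by
      rw [hi] at hlt; exact hlt
    refine ⟨i, hi', ?_, hi, ?_⟩
    · have : L[L.idxOf v] = v := List.getElem_idxOf hlt
      simp only [hi] at this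
      exact this
    · simp only [p', if_pos hv, hi]
      simp only [Nat.succ_eq_add_one, Nat.add_sub_cancel]
      rw [List.getD_eq_getElem _ _ (by omega)]
  have hsucc : ∀ i, ∀ hi : i + 1 < L.length, L[i + 1] ∈ τ ∧ p' L[i + 1] = L[i] := by
    intro i hi
    have hmem : L[i + 1] ∈ τ := by
      simp only [hL, List.getElem_cons_succ]
      exact List.getElem_mem _
    obtain ⟨j, hj, hj1, hj2, hj3⟩ := hidx _ hmem
    have : i = j := by
      have h1 : L.idxOf L[i + 1] = i + 1 := hLnd.idxOf_getElem _ hi
      omega
    subst this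
    exact ⟨hmem, hj3⟩
  refine ⟨t₀, hLS _ (List.getLast_mem hLne), ht₀z, p', d', ⟨T.root, ?_⟩, ?_⟩
  · intro v hv hvx
    by_cases hvτ : v ∈ τ
    · obtain ⟨i, hi, hi1, hi2, hi3⟩ := hidx v hvτ
      rw [hi3]
      refine ⟨hLS _ (List.getElem_mem _), ?_, ?_⟩
      · have := (List.isChain_iff_getElem.1 hLc) i hi
        rwa [hi1] at this
      · simp only [d', if_pos hvτ, hi2]
        by_cases hi0 : L[i] ∈ τ
        · rw [if_pos hi0]
          have : L.idxOf L[i] = i := hLnd.idxOf_getElem _ (by omega)
          rw [this]; omega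
        · rw [if_neg hi0]
          have : L[i] = s := by
            have : L[i] ∈ L := List.getElem_mem _
            rcases List.mem_cons.1 this with h | h
            · exact h
            · exact absurd h hi0
          rw [this]; omega
    · have hp' : p' v = p v := by simp only [p', if_neg hvτ]
      rw [hp']
      obtain ⟨h1, h2, h3⟩ := T.par v hv hvx
      refine ⟨h1, h2, ?_⟩
      simp only [d', if_neg hvτ]
      by_cases hpτ : p v ∈ τ
      · rw [if_pos hpτ]
        have h4 := (hτ _ hpτ).1
        have h5 : L.idxOf (p v) < L.length :=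
          List.idxOf_lt_length_iff.2 (List.mem_cons_of_mem _ hpτ)
        have h6 : d s + 1 ≤ d v := by omega
        calc K * d s + L.idxOf (p v) < K * d s + K := by omega
          _ = K * (d s + 1) := by ring
          _ ≤ K * d v := Nat.mul_le_mul_left _ h6
      · rw [if_neg hpτ]
        exact Nat.mul_lt_mul_of_pos_left h3 (by omega)
  · intro v hv hvΛ
    by_cases hvL : v ∈ L
    · have hvt : v ≠ t₀ := fun h => hvΛ (Or.inr h)
      obtain ⟨i, hi, rfl⟩ := List.getElem_of_mem hvL
      have hi1 : i + 1 < L.length := by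
        by_contra hcon
        apply hvt
        have : i = L.length - 1 := by omega
        subst this
        simp only [t₀]
        rw [List.getLast_eq_getElem]
      obtain ⟨h1, h2⟩ := hsucc i hi1
      exact ⟨L[i + 1], (hτ _ h1).2.1, (hτ _ h1).2.2.1, h2⟩
    · have hv1 : v ≠ q₁ := by
        rintro rfl
        apply hvL
        apply (hLmem _).2
        exact Or.inl (List.mem_of_getLast? hlα)
      have hv2 : v ≠ q₂ := by
        rintro rfl
        apply hvL
        apply (hLmem _).2
        exact Or.inr (List.mem_of_getLast? hlβ)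
      obtain ⟨u, hu1, hu2, hu3⟩ := hk v hv (by
        rintro (h | h | h)
        · exact hvΛ (Or.inl h)
        · exact hv1 h
        · exact hv2 h)
      have huτ : u ∉ τ := by
        intro h
        apply hvL
        rw [← hu3]
        exact (hτ u h).2.2.2
      exact ⟨u, hu1, hu2, by simp only [p', if_neg huτ]; exact hu3⟩

end PM94
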