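import Pool.Agent.PM94.Local

/-!
# Heights in a strong component: existence of skeletons
-/

namespace PM94

open Relation

variable {V : Type*}

theorem down [Finite V] {α : Type*} [Preorder α] {R : V → V → Prop} {A B S : Set V}
    (W : Finset V) {μ : V → α} (h : LH R A B S μ) :
    ∀ v ∈ S, v ∉ A → ∃ a t, a ∈ S ∧ (a ∈ A ∨ a ∈ W) ∧ t ∈ S ∧ R a t ∧ μ a < μ t ∧
      (t = v ∨ (t ∉ A ∧ t ∉ W)) ∧
      ReflTransGen (fun a b => R a b ∧ a ∈ S ∧ μ a < μ b ∧ a ∉ A ∧ a ∉ W) t v := by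
  have wf : WellFounded (fun u v : V => μ u < μ v) := by
    have : IsTrans V (fun u v : V => μ u < μ v) := ⟨fun _ _ _ h1 h2 => h1.trans h2⟩
    have : Std.Irrefl (fun u v : V => μ u < μ v) := ⟨fun _ h1 => lt_irrefl _ h1⟩
    exact Finite.wellFounded_of_trans_of_irrefl _
  intro v
  induction v using wf.induction with
  | _ v ih =>
    intro hv hvA
    obtain ⟨u, hu, huv, hlt⟩ := h.1 v hv hvA
    by_cases hu' : u ∈ A ∨ u ∈ W
    · exact ⟨u, v, hu, hu', hv, huv, hlt, Or.inl rfl, .refl⟩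
    · push Not at hu'
      obtain ⟨a, t, h1, h2, h3, h4, h5, h6, h7⟩ := ih u hlt hu hu'.1
      refine ⟨a, t, h1, h2, h3, h4, h5, ?_, h7.tail ⟨huv, hu, hlt, hu'.1, hu'.2⟩⟩
      rcases h6 with rfl | h6
      · exact Or.inr hu'
      · exact Or.inr h6

theorem through_of_chain {α : Type*} [Preorder α] {R : V → V → Prop} {A S K : Set V}
    {W X : Finset V} {μ : V → α} (hSK : ∀ v ∈ S, v ∈ K) {a t w : V} (ha : a ∈ X) (hat : R a t)
    (hlt : μ a < μ t)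
    (h : ReflTransGen (fun a b => R a b ∧ a ∈ S ∧ μ a < μ b ∧ a ∉ A ∧ a ∉ W) t w) :
    ∃ u ∈ X, μ u < μ w ∧ Through R {v | v ∈ K ∧ v ∉ A ∧ v ∉ X} u w := by
  induction h with
  | refl => exact ⟨a, ha, hlt, a, .refl, hat⟩
  | @tail z z' _ hzz ih =>
    obtain ⟨hR, hzS, hzlt, hzA, hzW⟩ := hzz
    obtain ⟨u, hu, hult, t', ht', ht'z⟩ := ih
    by_cases hzX : z ∈ X
    · exact ⟨z, hzX, hzlt, z, .refl, hR⟩
    · exact ⟨u, hu, hult.trans hzlt, z, ht'.tail ⟨ht'z, hSK z hzS, hzA, hzX⟩, hR⟩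

/-- A height contains a skeleton of bounded size. -/
theorem skeleton_of_height [Fintype V] [DecidableEq V] {R : V → V → Prop} {A B K S : Set V}
    {W : Finset V} {μ : V → ℕ} (hS : ∀ v ∈ S, v ∈ A ∨ v ∈ B ∨ v ∈ W) (hSK : ∀ v ∈ S, v ∈ K)
    (hWS : ∀ w ∈ W, w ∈ S) (hWA : ∀ w ∈ W, w ∉ A) (hWB : ∀ w ∈ W, w ∉ B)
    (h : LH R A B S μ) :
    ∃ X : Finset V, X.card ≤ 5 * W.card ∧ (∀ w ∈ W, w ∈ X) ∧ (∀ v ∈ X, v ∈ S) ∧
      (∀ v ∈ X, v ∉ A → v ∉ W → ∃ u ∈ X, R u v ∧ μ u < μ v) ∧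
      (∀ v ∈ X, v ∉ B → v ∉ W → ∃ u ∈ X, R v u ∧ μ v < μ u) ∧
      (∀ w ∈ W, ∃ u ∈ X, μ u < μ w ∧ Through R {v | v ∈ K ∧ v ∉ A ∧ v ∉ X} u w) ∧
      (∀ w ∈ W, ∃ u ∈ X, μ w < μ u ∧ Through R {v | v ∈ K ∧ v ∉ B ∧ v ∉ X} w u) := by
  classical
  have h1 : ∀ w : V, ∃ a t, w ∈ W → a ∈ S ∧ (a ∈ A ∨ a ∈ W) ∧ t ∈ S ∧ R a t ∧ μ a < μ t ∧
      (t = w ∨ (t ∉ A ∧ t ∉ W)) ∧
      ReflTransGen (fun a b => R a b ∧ a ∈ S ∧ μ a < μ b ∧ a ∉ A ∧ a ∉ W) t w := by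
    intro w
    by_cases hw : w ∈ W
    · obtain ⟨a, t, hat⟩ := down W h w (hWS w hw) (hWA w hw)
      exact ⟨a, t, fun _ => hat⟩
    · exact ⟨w, w, fun h => absurd h hw⟩
  have h2 : ∀ w : V, ∃ b s, w ∈ W → b ∈ S ∧ (b ∈ B ∨ b ∈ W) ∧ s ∈ S ∧ R s b ∧ μ s < μ b ∧
      (s = w ∨ (s ∉ B ∧ s ∉ W)) ∧
      ReflTransGen (fun a b => R b a ∧ a ∈ S ∧ μ b < μ a ∧ a ∉ B ∧ a ∉ W) s w := by
    intro w
    by_cases hw : w ∈ W
    · obtain ⟨b, s, hbs⟩ := down W h.dual w (hWS w hw) (hWB w hw)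
      exact ⟨b, s, fun _ => hbs⟩
    · exact ⟨w, w, fun h => absurd h hw⟩
  choose af tf haf using h1
  choose bf sf hbf using h2
  let X : Finset V := W ∪ (W.image af ∪ (W.image tf ∪ (W.image bf ∪ W.image sf)))
  have hX : ∀ v, v ∈ X ↔ v ∈ W ∨ (∃ w ∈ W, af w = v) ∨ (∃ w ∈ W, tf w = v) ∨
      (∃ w ∈ W, bf w = v) ∨ (∃ w ∈ W, sf w = v) := by
    intro v
    simp only [X, Finset.mem_union, Finset.mem_image]
  have hafX : ∀ w ∈ W, af w ∈ X := fun w hw => (hX _).2 (Or.inr (Or.inl ⟨w, hw, rfl⟩))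
  have htfX : ∀ w ∈ W, tf w ∈ X := fun w hw => (hX _).2 (Or.inr (Or.inr (Or.inl ⟨w, hw, rfl⟩)))
  have hbfX : ∀ w ∈ W, bf w ∈ X :=
    fun w hw => (hX _).2 (Or.inr (Or.inr (Or.inr (Or.inl ⟨w, hw, rfl⟩))))
  have hsfX : ∀ w ∈ W, sf w ∈ X :=
    fun w hw => (hX _).2 (Or.inr (Or.inr (Or.inr (Or.inr ⟨w, hw, rfl⟩))))
  refine ⟨X, ?_, fun w hw => (hX w).2 (Or.inl hw), ?_, ?_, ?_, ?_, ?_⟩
  · have e1 := Finset.card_union_le W (W.image af ∪ (W.image tf ∪ (W.image bf ∪ W.image sf)))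
    have e2 := Finset.card_union_le (W.image af) (W.image tf ∪ (W.image bf ∪ W.image sf))
    have e3 := Finset.card_union_le (W.image tf) (W.image bf ∪ W.image sf)
    have e4 := Finset.card_union_le (W.image bf) (W.image sf)
    have c1 : (W.image af).card ≤ W.card := Finset.card_image_le
    have c2 : (W.image tf).card ≤ W.card := Finset.card_image_le
    have c3 : (W.image bf).card ≤ W.card := Finset.card_image_le
    have c4 : (W.image sf).card ≤ W.card := Finset.card_image_le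
    simp only [X]
    omega
  · intro v hv
    rcases (hX v).1 hv with hv | ⟨w, hw, rfl⟩ | ⟨w, hw, rfl⟩ | ⟨w, hw, rfl⟩ | ⟨w, hw, rfl⟩
    · exact hWS v hv
    · exact (haf w hw).1
    · exact (haf w hw).2.2.1
    · exact (hbf w hw).1
    · exact (hbf w hw).2.2.1
  · intro v hv hvA hvW
    rcases (hX v).1 hv with hv | ⟨w, hw, rfl⟩ | ⟨w, hw, rfl⟩ | ⟨w, hw, rfl⟩ | ⟨w, hw, rfl⟩
    · exact absurd hv hvW
    · rcases (haf w hw).2.1 with h | h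
      · exact absurd h hvA
      · exact absurd h hvW
    · obtain ⟨-, -, -, k4, k5, -, -⟩ := haf w hw
      exact ⟨af w, hafX w hw, k4, k5⟩
    · obtain ⟨-, -, -, k4, k5, -, -⟩ := hbf w hw
      exact ⟨sf w, hsfX w hw, k4, k5⟩
    · obtain ⟨-, -, k3, -, -, k6, -⟩ := hbf w hw
      exfalso
      rcases k6 with k6 | ⟨k6, k7⟩
      · rw [k6] at hvW; exact hvW hw
      · rcases hS _ k3 with h | h | h
        · exact hvA h
        · exact k6 h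
        · exact k7 h
  · intro v hv hvB hvW
    rcases (hX v).1 hv with hv | ⟨w, hw, rfl⟩ | ⟨w, hw, rfl⟩ | ⟨w, hw, rfl⟩ | ⟨w, hw, rfl⟩
    · exact absurd hv hvW
    · obtain ⟨-, -, -, k4, k5, -, -⟩ := haf w hw
      exact ⟨tf w, htfX w hw, k4, k5⟩
    · obtain ⟨-, -, k3, -, -, k6, -⟩ := haf w hw
      exfalso
      rcases k6 with k6 | ⟨k6, k7⟩
      · rw [k6] at hvW; exact hvW hw
      · rcases hS _ k3 with h | h | h
        · exact k6 h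
        · exact hvB h
        · exact k7 h
    · rcases (hbf w hw).2.1 with h | h
      · exact absurd h hvB
      · exact absurd h hvW
    · obtain ⟨-, -, -, k4, k5, -, -⟩ := hbf w hw
      exact ⟨bf w, hbfX w hw, k4, k5⟩
  · intro w hw
    obtain ⟨-, -, -, k4, k5, -, k7⟩ := haf w hw
    exact through_of_chain hSK (hafX w hw) k4 k5 k7
  · intro w hw
    obtain ⟨-, -, -, k4, k5, -, k7⟩ := hbf w hw
    obtain ⟨u, hu, hlt, hth⟩ := through_of_chain (R := flip R)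
      (μ := fun v => OrderDual.toDual (μ v)) hSK (hbfX w hw) k4 k5 k7
    exact ⟨u, hu, hlt, hth.flip⟩

end PM94
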